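import Pool.Agent.Lib.MP_e9741b_an.Omega

/-!
The algebra `X` attached to a function `phi` on the punctured circle whose cluster set at `0` is the
closed unit disc, and which is asymptotic at `0` to a function in `H^∞`, as is its conjugate.
-/

set_option autoImplicit false

open MeasureTheory AddCircle Filter Topology
open scoped ENNReal ComplexConjugate InnerProductSpace BoundedContinuousFunction

namespace Pool.Agent.Lib.MP_e9741b_an

/-- The data from which the algebra is built. -/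
structure Data where
  /-- the function describing the fibre over `z = 1` -/
  phi : Om → ℂ
  phi_le : ∀ t, ‖phi t‖ ≤ 1
  cluster : ∀ w : ℂ, ‖w‖ ≤ 1 → MapClusterPt w (nb 0) phi
  /-- a function of `H^∞` asymptotic to `phi` -/
  f : Om →ᵇ ℂ
  /-- a function of `H^∞` asymptotic to the conjugate of `phi` -/
  g : Om →ᵇ ℂ
  f_mem : omHom f ∈ Hinf
  g_mem : omHom g ∈ Hinf
  f_lim : Tendsto (fun t => f t - phi t) (nb 0) (𝓝 0)
  g_lim : Tendsto (fun t => g t - conj (phi t)) (nb 0) (𝓝 0)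

/-- `H^∞` as a subalgebra of `L^∞`. -/
noncomputable def HinfAlg : Subalgebra ℂ Linf where
  carrier := Hinf
  mul_mem' := Hinf_mul
  add_mem' := Hinf_add
  algebraMap_mem' := by
    intro c
    rw [Algebra.algebraMap_eq_smul_one]
    exact Hinf_smul c one_mem_Hinf

theorem mem_HinfAlg {f : Linf} : f ∈ HinfAlg ↔ f ∈ Hinf := Iff.rfl

theorem DA.bounded {r : ℂ → ℂ} (hr : DA r) : ∃ C : ℝ, 0 ≤ C ∧ ∀ w, ‖w‖ ≤ 1 → ‖r w‖ ≤ C := by
  obtain ⟨C, hC⟩ := (isCompact_closedBall (0 : ℂ) 1).exists_bound_of_continuousOn hr.continuousOn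
  refine ⟨max C 0, le_max_right _ _, fun w hw => (hC w (by simpa using hw)).trans (le_max_left _ _)⟩

/-- `G` is asymptotic at `0` to `r ∘ phi`. -/
def Asym (d : Data) (G : Om → ℂ) (r : ℂ → ℂ) : Prop :=
  Tendsto (fun t => G t - r (d.phi t)) (nb 0) (𝓝 0)

variable (d : Data)

theorem Asym.mul {G H : Om →ᵇ ℂ} {r s : ℂ → ℂ} (hG : Asym d G r) (hH : Asym d H s)
    (hr : DA r) : Asym d (G * H : Om →ᵇ ℂ) (fun w => r w * s w) := by
  obtain ⟨C, hC0, hC⟩ := hr.bounded
  have h1 : Tendsto (fun t => ‖G t - r (d.phi t)‖ * ‖H‖ + C * ‖H t - s (d.phi t)‖) (nb 0)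
      (𝓝 (0 * ‖H‖ + C * 0)) := by
    refine Tendsto.add ?_ ?_
    · refine Tendsto.mul_const _ ?_
      simpa using hG.norm
    · refine Tendsto.const_mul _ ?_
      simpa using hH.norm
  rw [zero_mul, mul_zero, add_zero] at h1
  refine squeeze_zero_norm ?_ h1
  intro t
  have h2 : (G * H : Om →ᵇ ℂ) t - r (d.phi t) * s (d.phi t) =
      (G t - r (d.phi t)) * H t + r (d.phi t) * (H t - s (d.phi t)) := by
    rw [BoundedContinuousFunction.mul_apply]; ring
  show ‖(G * H : Om →ᵇ ℂ) t - r (d.phi t) * s (d.phi t)‖ ≤ _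
  rw [h2]
  calc ‖(G t - r (d.phi t)) * H t + r (d.phi t) * (H t - s (d.phi t))‖
      ≤ ‖(G t - r (d.phi t)) * H t‖ + ‖r (d.phi t) * (H t - s (d.phi t))‖ := norm_add_le _ _
    _ = ‖G t - r (d.phi t)‖ * ‖H t‖ + ‖r (d.phi t)‖ * ‖H t - s (d.phi t)‖ := by
        rw [norm_mul, norm_mul]
    _ ≤ _ := by
        have := hC _ (d.phi_le t)
        have := H.norm_coe_le_norm t
        gcongr

theorem Asym.add {G H : Om →ᵇ ℂ} {r s : ℂ → ℂ} (hG : Asym d G r) (hH : Asym d H s) :
    Asym d (G + H : Om →ᵇ ℂ) (fun w => r w + s w) := by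
  have := Tendsto.add hG hH
  rw [add_zero] at this
  refine this.congr ?_
  intro t
  rw [BoundedContinuousFunction.add_apply]; ring

/-- The algebra, as an algebra of functions on the punctured circle. -/
noncomputable def X0 : Subalgebra ℂ (Om →ᵇ ℂ) where
  carrier := {G | omHom G ∈ Hinf ∧ ∃ r : ℂ → ℂ, DA r ∧ Asym d G r}
  mul_mem' := by
    rintro G H ⟨h1, r, hr, h2⟩ ⟨h3, s, hs, h4⟩
    refine ⟨?_, fun w => r w * s w, hr.mul hs, h2.mul d h4 hr⟩
    rw [map_mul]; exact Hinf_mul h1 h3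
  add_mem' := by
    rintro G H ⟨h1, r, hr, h2⟩ ⟨h3, s, hs, h4⟩
    refine ⟨?_, fun w => r w + s w, hr.add hs, h2.add d h4⟩
    rw [map_add]; exact Hinf_add h1 h3
  algebraMap_mem' := by
    intro c
    refine ⟨?_, fun _ => c, DA_const c, ?_⟩
    · rw [AlgHomClass.commutes]
      exact HinfAlg.algebraMap_mem c
    · unfold Asym
      refine tendsto_const_nhds.congr ?_
      intro t
      simp [Algebra.algebraMap_eq_smul_one]

theorem mem_X0 {G : Om →ᵇ ℂ} : G ∈ X0 d ↔ omHom G ∈ Hinf ∧ ∃ r : ℂ → ℂ, DA r ∧ Asym d G r :=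
  Iff.rfl

/-- The filter of the points near `0` where `phi` is near `w`. -/
noncomputable def nbw (w : ℂ) : Filter Om := comap d.phi (𝓝 w) ⊓ nb 0

theorem neBot_nbw {w : ℂ} (hw : ‖w‖ ≤ 1) : NeBot (nbw d w) := by
  have h := d.cluster w hw
  rw [← map_neBot_iff d.phi, nbw, inf_comm, Filter.push_pull, inf_comm]
  exact h

theorem tendsto_phi (w : ℂ) : Tendsto d.phi (nbw d w) (𝓝 w) :=
  tendsto_comap.mono_left inf_le_left

theorem Asym.tendsto {G : Om → ℂ} {r : ℂ → ℂ} (h : Asym d G r) (hr : DA r) {w : ℂ}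
    (hw : ‖w‖ ≤ 1) : Tendsto G (nbw d w) (𝓝 (r w)) := by
  have h1 : Tendsto (fun t => r (d.phi t)) (nbw d w) (𝓝 (r w)) := by
    have h2 : ContinuousWithinAt r (Metric.closedBall 0 1) w :=
      hr.continuousOn w (by simpa using hw)
    refine h2.tendsto.comp ?_
    rw [tendsto_nhdsWithin_iff]
    exact ⟨tendsto_phi d w, Eventually.of_forall fun t => by simpa using d.phi_le t⟩
  have h3 : Tendsto (fun t => G t - r (d.phi t)) (nbw d w) (𝓝 0) := Tendsto.mono_left h inf_le_right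
  have := h3.add h1
  rw [zero_add] at this
  refine this.congr ?_
  intro t; ring

theorem Asym.norm_sub_le {G H : Om →ᵇ ℂ} {r s : ℂ → ℂ} (hG : Asym d G r) (hH : Asym d H s)
    (hr : DA r) (hs : DA s) {w : ℂ} (hw : ‖w‖ ≤ 1) : ‖r w - s w‖ ≤ ‖G - H‖ := by
  have := neBot_nbw d hw
  have h1 := ((hG.tendsto d hr hw).sub (hH.tendsto d hs hw)).norm
  refine le_of_tendsto' h1 ?_
  intro t
  exact (G - H).norm_coe_le_norm t

theorem isClosed_X0 : IsClosed (X0 d : Set (Om →ᵇ ℂ)) := by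
  apply isClosed_of_closure_subset
  intro G hG
  rw [mem_closure_iff_seq_limit] at hG
  obtain ⟨Gn, hGn, hlim⟩ := hG
  have hchoose : ∀ n, ∃ r : ℂ → ℂ, DA r ∧ Asym d (Gn n) r := fun n => (hGn n).2
  choose R hR1 hR2 using hchoose
  have hcau : CauchySeq Gn := hlim.cauchySeq
  have hdiff : ∀ n m, ∀ w : ℂ, ‖w‖ ≤ 1 → ‖R n w - R m w‖ ≤ ‖Gn n - Gn m‖ := fun n m w hw =>
    (hR2 n).norm_sub_le d (hR2 m) (hR1 n) (hR1 m) hw
  have hUC : UniformCauchySeqOn R atTop (Metric.closedBall (0 : ℂ) 1) := by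
    rw [Metric.uniformCauchySeqOn_iff]
    intro e he
    obtain ⟨N, hN⟩ := Metric.cauchySeq_iff.mp hcau e he
    refine ⟨N, fun m hm n hn w hw => ?_⟩
    rw [dist_eq_norm]
    have := hN m hm n hn
    rw [dist_eq_norm] at this
    exact (hdiff m n w (by simpa using hw)).trans_lt this
  have hpt : ∀ w : ℂ, ∃ a : ℂ, ‖w‖ ≤ 1 → Tendsto (fun n => R n w) atTop (𝓝 a) := by
    intro w
    by_cases hw : ‖w‖ ≤ 1
    · have h1 : CauchySeq (fun n => R n w) := hUC.cauchySeq (by simpa using hw)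
      obtain ⟨a, ha⟩ := cauchySeq_tendsto_of_complete h1
      exact ⟨a, fun _ => ha⟩
    · exact ⟨0, fun h => absurd h hw⟩
  choose r hr using hpt
  have hunif : TendstoUniformlyOn R r atTop (Metric.closedBall (0 : ℂ) 1) :=
    hUC.tendstoUniformlyOn_of_tendsto (fun w hw => hr w (by simpa using hw))
  have hDAr : DA r := DA_of_tendstoUniformlyOn hR1 hunif
  refine ⟨?_, r, hDAr, ?_⟩
  · have h1 : Tendsto (fun n => omHom (Gn n)) atTop (𝓝 (omHom G)) :=
      (isometry_omHom.continuous.tendsto G).comp hlim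
    exact isClosed_Hinf.mem_of_tendsto h1 (Eventually.of_forall fun n => (hGn n).1)
  · unfold Asym
    rw [Metric.tendsto_nhds]
    intro e he
    have h1 : ∀ᶠ n in atTop, dist (Gn n) G < e / 3 := Metric.tendsto_nhds.mp hlim _ (by positivity)
    have h2 := Metric.tendstoUniformlyOn_iff.mp hunif (e / 3) (by positivity)
    obtain ⟨n, hn1, hn2⟩ := (h1.and h2).exists
    have h3 := Metric.tendsto_nhds.mp (hR2 n) (e / 3) (by positivity)
    filter_upwards [h3] with t ht
    have h4 := hn2 (d.phi t) (by simpa using d.phi_le t)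
    rw [dist_zero_right] at ht ⊢
    have h5 : ‖G t - Gn n t‖ < e / 3 := by
      have : ‖(G - Gn n) t‖ ≤ ‖G - Gn n‖ := (G - Gn n).norm_coe_le_norm t
      rw [dist_comm, dist_eq_norm] at hn1
      exact this.trans_lt hn1
    rw [dist_comm, dist_eq_norm] at h4
    have h6 : G t - r (d.phi t) = (G t - Gn n t) + (Gn n t - R n (d.phi t)) +
        (R n (d.phi t) - r (d.phi t)) := by ring
    rw [h6]
    calc _ ≤ ‖(G t - Gn n t) + (Gn n t - R n (d.phi t))‖ + ‖R n (d.phi t) - r (d.phi t)‖ :=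
          norm_add_le _ _
      _ ≤ ‖G t - Gn n t‖ + ‖Gn n t - R n (d.phi t)‖ + ‖R n (d.phi t) - r (d.phi t)‖ := by
          gcongr; exact norm_add_le _ _
      _ < e / 3 + e / 3 + e / 3 := by gcongr
      _ = e := by ring

/-- The algebra `X`. -/
noncomputable def XX : Subalgebra ℂ Linf := (X0 d).map omHom.toAlgHom

theorem mem_XX {f : Linf} : f ∈ XX d ↔ ∃ G ∈ X0 d, omHom G = f := Iff.rfl

theorem isClosed_XX : IsClosed (XX d : Set Linf) := by
  have : (XX d : Set Linf) = omHom '' (X0 d : Set (Om →ᵇ ℂ)) := rfl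
  rw [this]
  exact isometry_omHom.isClosedEmbedding.isClosedMap _ (isClosed_X0 d)

theorem XX_subset_Hinf : (XX d : Set Linf) ⊆ Hinf := by
  rintro _ ⟨G, hG, rfl⟩
  exact hG.1

theorem res_mem_X0 {c : C(Circ, ℂ)} (hc : contHom c ∈ Hinf) : res c ∈ X0 d := by
  refine ⟨by rw [omHom_res]; exact hc, fun _ => c 0, DA_const _, ?_⟩
  have := (tendsto_res c 0).sub_const (c 0)
  rwa [sub_self] at this

theorem f_mem_X0 : d.f ∈ X0 d := ⟨d.f_mem, fun w => w, DA_id, d.f_lim⟩

theorem cond1_left : (CD DD : Set Linf) ∩ Hinf ⊆ (XX d : Set Linf) := by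
  rintro f ⟨hf1, hf2⟩
  obtain ⟨c, rfl⟩ := CD_subset hf1
  exact ⟨res c, res_mem_X0 d hf2, omHom_res c⟩

/-- A polynomial in two bounded asymptotic functions. -/
theorem tendsto_polynomial_sub (p : Polynomial ℂ) {a b : Om → ℂ} {l : Filter Om} {C : ℝ}
    (ha : ∀ t, ‖a t‖ ≤ C) (hb : ∀ t, ‖b t‖ ≤ C) (h : Tendsto (fun t => a t - b t) l (𝓝 0)) :
    Tendsto (fun t => p.eval (a t) - p.eval (b t)) l (𝓝 0) := by
  have huc : UniformContinuousOn (fun z => p.eval z) (Metric.closedBall (0 : ℂ) C) :=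
    (isCompact_closedBall (0 : ℂ) C).uniformContinuousOn_of_continuous p.continuous.continuousOn
  rw [Metric.uniformContinuousOn_iff] at huc
  rw [Metric.tendsto_nhds] at h ⊢
  intro e he
  obtain ⟨δ, hδ, hδ2⟩ := huc e he
  filter_upwards [h δ hδ] with t ht
  rw [dist_zero_right] at ht ⊢
  have := hδ2 (a t) (by simpa using ha t) (b t) (by simpa using hb t) (by rwa [dist_eq_norm])
  rwa [dist_eq_norm] at this

theorem star_mem_DD {G : Om →ᵇ ℂ} (hG : G ∈ X0 d) : star (omHom G) ∈ DD := by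
  obtain ⟨hG1, r, hr, hG2⟩ := hG
  rw [← map_star]
  have hcl : IsClosed (DD : Set Linf) := isDouglas_DD.1
  rw [← SetLike.mem_coe, ← hcl.closure_eq, Metric.mem_closure_iff]
  intro e he
  obtain ⟨p, hp⟩ := hr.approx (e := e / 4) (by positivity)
  let q : Polynomial ℂ := p.map (starRingEnd ℂ)
  have hq : ∀ w : ℂ, q.eval (conj w) = conj (p.eval w) := by
    intro w
    simp only [q, Polynomial.eval_map, Polynomial.eval₂_at_apply]
  let A : Om →ᵇ ℂ := Polynomial.aeval d.g q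
  have hA : ∀ t, A t = q.eval (d.g t) := by
    intro t
    simp only [A]
    induction q using Polynomial.induction_on' with
    | add p1 p2 h1 h2 => simp [h1, h2]
    | monomial n a => simp [Polynomial.aeval_monomial, Algebra.algebraMap_eq_smul_one]
  have hAmem : omHom A ∈ Hinf := by
    have h1 : omHom A = Polynomial.aeval (omHom d.g) q :=
      (Polynomial.aeval_algHom_apply omHom.toAlgHom d.g q).symm
    rw [h1, ← mem_HinfAlg]
    exact Algebra.adjoin_le (Set.singleton_subset_iff.mpr (mem_HinfAlg.mpr d.g_mem))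
      (Polynomial.aeval_mem_adjoin_singleton ℂ (omHom d.g))
  set F : Om →ᵇ ℂ := star G - A with hF
  have hev : ∀ᶠ t in nb 0, ‖F t‖ ≤ e / 2 := by
    have t1 : Tendsto (fun t => ‖G t - r (d.phi t)‖) (nb 0) (𝓝 0) := by simpa using hG2.norm
    have hb : ∀ t, ‖d.g t‖ ≤ max ‖d.g‖ 1 := fun t => (d.g.norm_coe_le_norm t).trans (le_max_left _ _)
    have hb2 : ∀ t, ‖conj (d.phi t)‖ ≤ max ‖d.g‖ 1 := fun t => by
      rw [RCLike.norm_conj]; exact (d.phi_le t).trans (le_max_right _ _)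
    have t2 := (tendsto_polynomial_sub q hb hb2 d.g_lim).norm
    rw [norm_zero] at t2
    filter_upwards [t1.eventually (ge_mem_nhds (show 0 < e / 8 by positivity)),
      t2.eventually (ge_mem_nhds (show 0 < e / 8 by positivity))] with t ht1 ht2
    have h3 : F t = conj (G t - r (d.phi t)) + conj (r (d.phi t) - p.eval (d.phi t)) -
        (q.eval (d.g t) - q.eval (conj (d.phi t))) := by
      rw [hF, BoundedContinuousFunction.sub_apply, hA, hq]
      simp only [map_sub]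
      show conj (G t) - _ = _
      ring
    rw [h3]
    have h4 := hp _ (d.phi_le t)
    calc _ ≤ ‖conj (G t - r (d.phi t)) + conj (r (d.phi t) - p.eval (d.phi t))‖ +
          ‖q.eval (d.g t) - q.eval (conj (d.phi t))‖ := norm_sub_le _ _
      _ ≤ ‖conj (G t - r (d.phi t))‖ + ‖conj (r (d.phi t) - p.eval (d.phi t))‖ +
          ‖q.eval (d.g t) - q.eval (conj (d.phi t))‖ := by gcongr; exact norm_add_le _ _
      _ ≤ e / 8 + e / 4 + e / 8 := by
          rw [RCLike.norm_conj, RCLike.norm_conj]; gcongr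
      _ = e / 2 := by ring
  obtain ⟨n, hn⟩ := exists_pow_pk 0 F (show 0 < e / 2 by positivity) hev
  -- the continuous part
  have hcont : Tendsto ((1 - (res (pk 0)) ^ n) * F : Om →ᵇ ℂ) (nb 0) (𝓝 0) := by
    have h1 : Tendsto (fun t : Om => (1 : ℂ) - (res (pk 0) t) ^ n) (nb 0) (𝓝 0) := by
      have := ((tendsto_res (pk 0) 0).pow n).const_sub (1 : ℂ)
      rwa [pk_self, one_pow, sub_self] at this
    have h2 : Tendsto (fun t : Om => ‖(1 : ℂ) - (res (pk 0) t) ^ n‖ * ‖F‖) (nb 0) (𝓝 (0 * ‖F‖)) := by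
      refine Tendsto.mul_const _ ?_
      simpa using h1.norm
    rw [zero_mul] at h2
    refine squeeze_zero_norm ?_ h2
    intro t
    rw [BoundedContinuousFunction.mul_apply, norm_mul]
    have := F.norm_coe_le_norm t
    gcongr
    exact le_rfl
  obtain ⟨c, hc, -⟩ := exists_cont_of_tendsto hcont
  refine ⟨omHom A + contHom c, DD.add_mem ?_ (contHom_mem_DD c), ?_⟩
  · exact isDouglas_DD.2 hAmem
  · rw [dist_eq_norm, ← omHom_res, hc, ← map_add, ← map_sub, norm_omHom]
    have h5 : star G - (A + (1 - (res (pk 0)) ^ n) * F) = (res (pk 0)) ^ n * F := by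
      rw [hF]; ring
    rw [h5]
    linarith

theorem cond1 : ∃ D : Subalgebra ℂ Linf, IsDouglas D ∧
    (CD D : Set Linf) ∩ Hinf ⊆ (XX d : Set Linf) ∧ (XX d : Set Linf) ⊆ QD D ∩ Hinf := by
  refine ⟨DD, isDouglas_DD, cond1_left d, ?_⟩
  intro f hf
  have h1 := XX_subset_Hinf d hf
  obtain ⟨G, hG, rfl⟩ := hf
  exact ⟨⟨isDouglas_DD.2 h1, star_mem_DD d hG⟩, h1⟩

end Pool.Agent.Lib.MP_e9741b_an
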