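import Pool.Agent.Lib.MP_e9741b_an.Main

/-!
Construction of the function `phi` and of the functions `f`, `g` of `H^∞`.
-/

set_option autoImplicit false

open MeasureTheory AddCircle Filter Topology
open scoped ENNReal ComplexConjugate InnerProductSpace BoundedContinuousFunction Real

namespace Pool.Agent.Lib.MP_e9741b_an

/-! ### Boundary values of bounded holomorphic functions -/

theorem norm_tc (t : Circ) : ‖(toCircle t : ℂ)‖ ≤ 1 := (Circle.norm_coe _).le

theorem tc_mem (t : Circ) : (toCircle t : ℂ) ∈ Metric.closedBall (0 : ℂ) 1 := by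
  rw [mem_closedBall_zero_iff]; exact norm_tc t

/-- The boundary function of a function of the disc algebra. -/
noncomputable def bdry {r : ℂ → ℂ} (hr : DA r) : C(Circ, ℂ) :=
  ⟨fun t => r (toCircle t), by
    have h := hr.continuousOn
    rw [continuous_iff_continuousAt]
    intro t
    have h1 : Tendsto (fun t : Circ => (toCircle t : ℂ)) (𝓝 t)
        (𝓝[Metric.closedBall 0 1] (toCircle t : ℂ)) := by
      rw [tendsto_nhdsWithin_iff]
      refine ⟨?_, Eventually.of_forall fun s => tc_mem s⟩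
      have : Continuous fun t : Circ => (toCircle t : ℂ) := by fun_prop
      exact this.tendsto t
    exact (h _ (tc_mem t)).tendsto.comp h1⟩

theorem bdry_apply {r : ℂ → ℂ} (hr : DA r) (t : Circ) : bdry hr t = r (toCircle t) := rfl

theorem bdry_polynomial_mem (p : Polynomial ℂ) : contHom (bdry (DA_polynomial p)) ∈ Hinf := by
  have h1 : bdry (DA_polynomial p) = Polynomial.aeval (fourier 1 : C(Circ, ℂ)) p := by
    ext t
    rw [bdry_apply]
    have h2 : (Polynomial.aeval (fourier 1 : C(Circ, ℂ)) p) t =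
        (ContinuousMap.evalAlgHom ℂ ℂ t) (Polynomial.aeval (fourier 1 : C(Circ, ℂ)) p) := rfl
    rw [h2, ← Polynomial.aeval_algHom_apply]
    simp only [Polynomial.coe_aeval_eq_eval]
    show _ = Polynomial.eval (fourier 1 t) p
    rw [fourier_one]
  rw [h1]
  have h3 : contHom (Polynomial.aeval (fourier 1 : C(Circ, ℂ)) p) =
      Polynomial.aeval (contHom (fourier 1)) p :=
    (Polynomial.aeval_algHom_apply contHom.toAlgHom (fourier 1) p).symm
  rw [h3, ← mem_HinfAlg]
  exact Algebra.adjoin_le (Set.singleton_subset_iff.mpr (mem_HinfAlg.mpr (by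
    rw [contHom_fourier]; exact ee_mem_Hinf zero_le_one)))
    (Polynomial.aeval_mem_adjoin_singleton ℂ _)

theorem bdry_mem {r : ℂ → ℂ} (hr : DA r) : contHom (bdry hr) ∈ Hinf := by
  rw [← isClosed_Hinf.closure_eq, Metric.mem_closure_iff]
  intro e he
  obtain ⟨p, hp⟩ := hr.approx (e := e / 2) (by positivity)
  refine ⟨_, bdry_polynomial_mem p, ?_⟩
  rw [dist_eq_norm, ← map_sub, norm_contHom]
  have : ‖bdry hr - bdry (DA_polynomial p)‖ ≤ e / 2 := by
    rw [ContinuousMap.norm_le _ (by positivity)]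
    intro t
    exact hp _ (norm_tc t)
  linarith

theorem toCircle_ne_one (t : Om) : (toCircle (t : Circ) : ℂ) ≠ 1 := by
  intro h
  have h4 : toCircle (t : Circ) = 1 := by
    apply Subtype.ext; simpa using h
  have h5 : (t : Circ) = 0 := by
    apply injective_toCircle (T := 1) one_ne_zero
    rw [h4, toCircle_zero]
  exact t.2 h5

/-- A bounded holomorphic function which is continuous on the closed disc without `1` has its
boundary function in `H^∞`. -/
theorem mem_Hinf_of_holomorphic {F : ℂ → ℂ} {M : ℝ} (hF : DifferentiableOn ℂ F (Metric.ball 0 1))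
    (hc : ∀ z : ℂ, ‖z‖ ≤ 1 → z ≠ 1 → ContinuousAt F z) (hM : ∀ z : ℂ, ‖z‖ ≤ 1 → z ≠ 1 → ‖F z‖ ≤ M)
    (G : Om →ᵇ ℂ) (hG : ∀ t : Om, G t = F (toCircle (t : Circ))) : omHom G ∈ Hinf := by
  intro n hn
  -- dilations
  let ρ : ℕ → ℝ := fun k => 1 - 1 / ((k : ℝ) + 2)
  have hρ0 : ∀ k, 0 ≤ ρ k := by
    intro k
    simp only [ρ]
    have : 1 / ((k : ℝ) + 2) ≤ 1 := by
      rw [div_le_one (by positivity)]; linarith [(Nat.cast_nonneg k : (0 : ℝ) ≤ k)]
    linarith
  have hρ1 : ∀ k, ρ k < 1 := by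
    intro k
    simp only [ρ]
    have : 0 < 1 / ((k : ℝ) + 2) := by positivity
    linarith
  have hρlim : Tendsto ρ atTop (𝓝 1) := by
    have h1 : Tendsto (fun k : ℕ => 1 / ((k : ℝ) + 2)) atTop (𝓝 0) := by
      have := (tendsto_one_div_add_atTop_nhds_zero_nat (𝕜 := ℝ)).comp (tendsto_add_atTop_nat 1)
      refine this.congr ?_
      intro k
      simp only [Function.comp_apply]
      push_cast; ring_nf
    have := h1.const_sub 1
    rw [sub_zero] at this
    exact this
  have hDA : ∀ k, DA (fun w => F (ρ k * w)) := by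
    intro k
    apply DifferentiableOn.diffContOnCl
    rw [closure_ball _ one_ne_zero]
    refine hF.comp (by fun_prop) ?_
    intro w hw
    rw [mem_ball_zero_iff, norm_mul, Complex.norm_real, Real.norm_eq_abs, abs_of_nonneg (hρ0 k)]
    have : ‖w‖ ≤ 1 := by simpa using hw
    nlinarith [hρ0 k, hρ1 k, norm_nonneg w]
  have hzero : ∀ k, ∫ t, fourier (-n) t • (F (ρ k * (toCircle t : ℂ))) ∂mu = 0 := by
    intro k
    have h1 := bdry_mem (hDA k) n hn
    rw [fourierCoeff_congr_ae (coeFn_contHom _)] at h1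
    exact h1
  have hlim : Tendsto (fun k => ∫ t, fourier (-n) t • (F (ρ k * (toCircle t : ℂ))) ∂mu) atTop
      (𝓝 (∫ t, fourier (-n) t • ext G t ∂mu)) := by
    apply tendsto_integral_of_dominated_convergence (fun _ => M)
    · intro k
      have h1 : Continuous fun t : Circ => fourier (-n) t • (F (ρ k * (toCircle t : ℂ))) := by
        have h2 := (bdry (hDA k)).continuous
        have h3 : Continuous fun t : Circ => F (ρ k * (toCircle t : ℂ)) := h2
        exact (map_continuous (fourier (-n))).smul h3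
      exact h1.aestronglyMeasurable
    · exact integrable_const _
    · intro k
      filter_upwards with t
      rw [norm_smul, fourier_apply, Circle.norm_coe, one_mul]
      have h1 : ‖(ρ k : ℂ) * (toCircle t : ℂ)‖ < 1 := by
        rw [norm_mul, Circle.norm_coe, mul_one, Complex.norm_real, Real.norm_eq_abs,
          abs_of_nonneg (hρ0 k)]
        exact hρ1 k
      apply hM _ h1.le
      intro h2
      rw [h2, norm_one] at h1
      exact lt_irrefl _ h1
    · filter_upwards [ae_ne0] with t ht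
      have h1 : (toCircle t : ℂ) ≠ 1 := toCircle_ne_one ⟨t, ht⟩
      have h2 := hc _ (norm_tc t) h1
      have h3 : Tendsto (fun k => (ρ k : ℂ) * (toCircle t : ℂ)) atTop (𝓝 (toCircle t : ℂ)) := by
        have h4 : Tendsto (fun k => (ρ k : ℂ)) atTop (𝓝 ((1 : ℝ) : ℂ)) :=
          (Complex.continuous_ofReal.tendsto 1).comp hρlim
        have := h4.mul_const (toCircle t : ℂ)
        simpa using this
      have h5 := h2.tendsto.comp h3
      rw [ext_of_ne _ ht, hG]
      exact h5.const_smul _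
  have h1 : fourierCoeff (⇑(omHom G)) n = ∫ t, fourier (-n) t • ext G t ∂mu := by
    rw [fourierCoeff_congr_ae (coeFn_omHom G)]; rfl
  rw [h1]
  refine tendsto_nhds_unique hlim ?_
  refine tendsto_const_nhds.congr ?_
  intro k
  exact (hzero k).symm

/-! ### The functions `F_b(z) = exp (i b log (2 - log (1 - z)))` -/

/-- `L(z) = 2 - log (1 - z)`. -/
noncomputable def LL (z : ℂ) : ℂ := 2 - Complex.log (1 - z)

/-- `F_b(z) = L(z)^(i b)`. -/
noncomputable def FF (b : ℝ) (z : ℂ) : ℂ := Complex.exp (Complex.I * b * Complex.log (LL z))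

theorem re_one_sub_pos {z : ℂ} (hz : ‖z‖ ≤ 1) (h1 : z ≠ 1) : 0 < (1 - z).re := by
  have h2 : z.re ≤ ‖z‖ := Complex.re_le_norm z
  have h3 : z.re ≠ 1 := by
    intro h
    have h4 : ‖z‖ = 1 := le_antisymm hz (by linarith)
    have h6 : ‖z‖ ^ 2 = z.re ^ 2 + z.im ^ 2 := by
      rw [← Complex.normSq_eq_norm_sq, Complex.normSq_apply]; ring
    have h7 : z.im = 0 := by
      rw [h4, h] at h6
      nlinarith
    exact h1 (Complex.ext (by simp [h]) (by simp [h7]))
  have h4 : z.re < 1 := lt_of_le_of_ne (h2.trans hz) h3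
  simp only [Complex.sub_re, Complex.one_re]
  linarith

theorem one_sub_mem {z : ℂ} (hz : ‖z‖ ≤ 1) (h1 : z ≠ 1) : 1 - z ∈ Complex.slitPlane :=
  Or.inl (re_one_sub_pos hz h1)

theorem one_le_re_LL {z : ℂ} (hz : ‖z‖ ≤ 1) (h1 : z ≠ 1) : 1 ≤ (LL z).re := by
  have h2 : ‖1 - z‖ ≤ 2 := by
    have := norm_sub_le (1 : ℂ) z
    rw [norm_one] at this
    linarith
  have h3 : 0 < ‖1 - z‖ := norm_pos_iff.mpr (sub_ne_zero.mpr (Ne.symm h1))
  have h4 : Real.log ‖1 - z‖ ≤ Real.log 2 := Real.log_le_log h3 h2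
  have h5 := Real.log_two_lt_d9
  simp only [LL, Complex.sub_re, Complex.log_re, Complex.re_ofNat]
  linarith

theorem LL_mem {z : ℂ} (hz : ‖z‖ ≤ 1) (h1 : z ≠ 1) : LL z ∈ Complex.slitPlane :=
  Or.inl (lt_of_lt_of_le one_pos (one_le_re_LL hz h1))

theorem abs_im_LL_le (z : ℂ) : |(LL z).im| ≤ π := by
  simp only [LL, Complex.sub_im, Complex.log_im, Complex.im_ofNat, zero_sub, abs_neg]
  exact Complex.abs_arg_le_pi _

theorem differentiableAt_LL {z : ℂ} (hz : ‖z‖ ≤ 1) (h1 : z ≠ 1) : DifferentiableAt ℂ LL z := by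
  unfold LL
  exact (differentiableAt_const _).sub
    (((differentiableAt_const _).sub differentiableAt_id).clog (one_sub_mem hz h1))

theorem differentiableAt_FF (b : ℝ) {z : ℂ} (hz : ‖z‖ ≤ 1) (h1 : z ≠ 1) :
    DifferentiableAt ℂ (FF b) z := by
  unfold FF
  exact (((differentiableAt_LL hz h1).clog (LL_mem hz h1)).const_mul _).cexp

theorem norm_FF (b : ℝ) (z : ℂ) : ‖FF b z‖ = Real.exp (-(b * Complex.arg (LL z))) := by
  rw [FF, Complex.norm_exp]
  congr 1
  rw [← Complex.log_im]
  simp [Complex.mul_re, Complex.mul_im]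

theorem norm_FF_le (b : ℝ) (z : ℂ) : ‖FF b z‖ ≤ Real.exp (|b| * π) := by
  rw [norm_FF]
  apply Real.exp_le_exp.mpr
  have h1 := Complex.abs_arg_le_pi (LL z)
  calc -(b * Complex.arg (LL z)) ≤ |b * Complex.arg (LL z)| := neg_le_abs _
    _ = |b| * |Complex.arg (LL z)| := abs_mul _ _
    _ ≤ |b| * π := by gcongr

/-- The boundary function of `F_b`. -/
noncomputable def fb (b : ℝ) : Om →ᵇ ℂ :=
  BoundedContinuousFunction.ofNormedAddCommGroup (fun t : Om => FF b (toCircle (t : Circ)))
    (by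
      rw [continuous_iff_continuousAt]
      intro t
      have h1 : Continuous fun t : Om => (toCircle (t : Circ) : ℂ) := by fun_prop
      exact ContinuousAt.comp (f := fun t : Om => (toCircle (t : Circ) : ℂ))
        (differentiableAt_FF b (norm_tc _) (toCircle_ne_one t)).continuousAt h1.continuousAt)
    (Real.exp (|b| * π)) (fun t => norm_FF_le b _)

theorem fb_apply (b : ℝ) (t : Om) : fb b t = FF b (toCircle (t : Circ)) := rfl

theorem fb_mem (b : ℝ) : omHom (fb b) ∈ Hinf := by
  apply mem_Hinf_of_holomorphic (F := FF b) (M := Real.exp (|b| * π))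
  · intro z hz
    have h1 : ‖z‖ < 1 := by simpa using hz
    refine (differentiableAt_FF b h1.le ?_).differentiableWithinAt
    rintro rfl
    rw [norm_one] at h1
    exact lt_irrefl _ h1
  · intro z hz h1
    exact (differentiableAt_FF b hz h1).continuousAt
  · intro z _ _
    exact norm_FF_le b z
  · intro t; rfl

/-! ### Behaviour at `0` -/

theorem tendsto_re_LL : Tendsto (fun t : Om => (LL (toCircle (t : Circ))).re) (nb 0) atTop := by
  have h1 : Tendsto (fun t : Om => ‖1 - (toCircle (t : Circ) : ℂ)‖) (nb 0) (𝓝[>] 0) := by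
    rw [tendsto_nhdsWithin_iff]
    constructor
    · have h2 : Continuous fun t : Circ => ‖1 - (toCircle t : ℂ)‖ := by fun_prop
      have h3 := (h2.tendsto 0).comp (tendsto_comap : Tendsto Subtype.val (nb 0) (𝓝 (0 : Circ)))
      have h4 : ‖1 - (toCircle (0 : Circ) : ℂ)‖ = 0 := by
        rw [toCircle_zero]; simp
      rw [h4] at h3
      exact h3
    · filter_upwards with t
      exact norm_pos_iff.mpr (sub_ne_zero.mpr (Ne.symm (toCircle_ne_one t)))
  have h2 := Real.tendsto_log_nhdsGT_zero.comp h1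
  have h3 := tendsto_atTop_add_const_left (nb 0) 2 (tendsto_neg_atBot_atTop.comp h2)
  refine h3.congr ?_
  intro t
  simp [LL, Complex.log_re, sub_eq_add_neg]

theorem tendsto_arg_LL : Tendsto (fun t : Om => Complex.arg (LL (toCircle (t : Circ)))) (nb 0)
    (𝓝 0) := by
  have h1 : Tendsto (fun t : Om => (LL (toCircle (t : Circ))).im / (LL (toCircle (t : Circ))).re)
      (nb 0) (𝓝 0) := by
    have h2 : Tendsto (fun t : Om => π / (LL (toCircle (t : Circ))).re) (nb 0) (𝓝 0) :=
      tendsto_const_nhds.div_atTop tendsto_re_LL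
    refine squeeze_zero_norm ?_ h2
    intro t
    have h3 := one_le_re_LL (z := toCircle (t : Circ)) (norm_tc _) (toCircle_ne_one t)
    rw [norm_div, Real.norm_eq_abs, Real.norm_eq_abs, abs_of_pos (by linarith : 0 < (LL (toCircle (t : Circ))).re)]
    have := abs_im_LL_le (toCircle (t : Circ))
    gcongr
  have h4 : Tendsto (fun t : Om => (1 : ℂ) + (((LL (toCircle (t : Circ))).im /
      (LL (toCircle (t : Circ))).re : ℝ) : ℂ) * Complex.I) (nb 0) (𝓝 1) := by
    have h5 := ((Complex.continuous_ofReal.tendsto 0).comp h1).mul_const Complex.I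
    have h6 := h5.const_add (1 : ℂ)
    simpa using h6
  have h7 : ContinuousAt Complex.arg 1 := Complex.continuousAt_arg Complex.one_mem_slitPlane
  have h8 := h7.tendsto.comp h4
  rw [Complex.arg_one] at h8
  refine h8.congr ?_
  intro t
  have h3 := one_le_re_LL (z := toCircle (t : Circ)) (norm_tc _) (toCircle_ne_one t)
  have h9 : LL (toCircle (t : Circ)) = (((LL (toCircle (t : Circ))).re : ℝ) : ℂ) *
      ((1 : ℂ) + (((LL (toCircle (t : Circ))).im / (LL (toCircle (t : Circ))).re : ℝ) : ℂ) *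
        Complex.I) := by
    apply Complex.ext
    · simp
    · simp
      field_simp
  simp only [Function.comp_apply]
  conv_rhs => rw [h9]
  rw [Complex.arg_real_mul _ (by linarith)]

/-- `u(t) = log |L(t)|`. -/
noncomputable def uu (t : Om) : ℝ := Real.log ‖LL (toCircle (t : Circ))‖

theorem tendsto_uu : Tendsto uu (nb 0) atTop := by
  apply Real.tendsto_log_atTop.comp
  refine tendsto_atTop_mono ?_ tendsto_re_LL
  intro t
  exact Complex.re_le_norm _

theorem fb_eq (b : ℝ) (t : Om) : fb b t = Complex.exp (Complex.I * b * uu t) *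
    Complex.exp (-(b * Complex.arg (LL (toCircle (t : Circ))) : ℝ)) := by
  rw [fb_apply, FF, ← Complex.exp_add]
  congr 1
  have h : Complex.log (LL (toCircle (t : Circ))) = (uu t : ℂ) +
      (Complex.arg (LL (toCircle (t : Circ))) : ℂ) * Complex.I := by
    rw [Complex.log, uu]
  rw [h]
  push_cast
  ring_nf
  rw [Complex.I_sq]; ring

theorem norm_exp_I_real (x : ℝ) : ‖Complex.exp (Complex.I * x)‖ = 1 := by
  rw [mul_comm]; exact Complex.norm_exp_ofReal_mul_I x

theorem fb_lim (b : ℝ) : Tendsto (fun t => fb b t - Complex.exp (Complex.I * b * uu t)) (nb 0)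
    (𝓝 0) := by
  have h1 : Tendsto (fun t : Om => Complex.exp (-(b * Complex.arg (LL (toCircle (t : Circ))) : ℝ)) -
      1) (nb 0) (𝓝 0) := by
    have h2 := tendsto_arg_LL.const_mul b
    rw [mul_zero] at h2
    have h3 : Continuous fun x : ℝ => Complex.exp (-((x : ℝ) : ℂ)) - 1 := by fun_prop
    have h4 := (h3.tendsto 0).comp h2
    have h5 : Complex.exp (-((0 : ℝ) : ℂ)) - 1 = 0 := by simp
    rw [h5] at h4
    exact h4
  have h5 := h1.norm
  rw [norm_zero] at h5
  refine squeeze_zero_norm ?_ h5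
  intro t
  rw [fb_eq]
  have h6 : Complex.exp (Complex.I * b * uu t) *
      Complex.exp (-(b * Complex.arg (LL (toCircle (t : Circ))) : ℝ)) -
      Complex.exp (Complex.I * b * uu t) = Complex.exp (Complex.I * b * uu t) *
      (Complex.exp (-(b * Complex.arg (LL (toCircle (t : Circ))) : ℝ)) - 1) := by ring
  rw [h6, norm_mul]
  have h7 : ‖Complex.exp (Complex.I * b * uu t)‖ = 1 := by
    have : Complex.I * b * uu t = Complex.I * ((b * uu t : ℝ) : ℂ) := by push_cast; ring
    rw [this]; exact norm_exp_I_real _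
  rw [h7, one_mul]

/-- The path in the closed unit disc. -/
noncomputable def Phi (x : ℝ) : ℂ :=
  (Complex.exp (Complex.I * x) + Complex.exp (Complex.I * (Real.sqrt 2 * x))) / 2

theorem norm_Phi_le (x : ℝ) : ‖Phi x‖ ≤ 1 := by
  rw [Phi, norm_div, Complex.norm_two]
  have h1 := norm_add_le (Complex.exp (Complex.I * x)) (Complex.exp (Complex.I * (Real.sqrt 2 * x)))
  have h2 : ‖Complex.exp (Complex.I * (Real.sqrt 2 * x))‖ = 1 := by
    rw [← Complex.ofReal_mul]; exact norm_exp_I_real _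
  rw [norm_exp_I_real, h2] at h1
  linarith

theorem conj_exp_I (x : ℝ) : conj (Complex.exp (Complex.I * x)) = Complex.exp (-(Complex.I * x)) := by
  rw [← Complex.exp_conj, map_mul, Complex.conj_I, Complex.conj_ofReal]
  congr 1; ring

theorem mapClusterPt_nsmul (y : Circ) :
    MapClusterPt y atTop (fun k : ℕ => k • ((Real.sqrt 2 : ℝ) : Circ)) := by
  have h1 : DenseRange (fun k : ℤ => k • ((Real.sqrt 2 : ℝ) : Circ)) := by
    rw [denseRange_zsmul_coe_iff, div_one]; exact irrational_sqrt_two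
  rw [mapClusterPt_atTop_nsmul_iff_mem_topologicalClosure_zmultiples]
  have h2 : (AddSubgroup.zmultiples ((Real.sqrt 2 : ℝ) : Circ) : Set Circ) =
      Set.range (fun k : ℤ => k • ((Real.sqrt 2 : ℝ) : Circ)) := rfl
  show y ∈ closure (AddSubgroup.zmultiples ((Real.sqrt 2 : ℝ) : Circ) : Set Circ)
  rw [h2]
  exact h1 y

theorem mapClusterPt_Phi {w : ℂ} (hw : ‖w‖ ≤ 1) : MapClusterPt w atTop Phi := by
  -- polar decomposition
  set α := Real.arccos ‖w‖ with hα
  set ψ := Complex.arg w with hψ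
  set θ : ℝ := ψ + α with hθ
  have hcos : Real.cos α = ‖w‖ := Real.cos_arccos (by linarith [norm_nonneg w]) hw
  obtain ⟨y, hy⟩ : ∃ y : Circ, (toCircle y : ℂ) =
      Complex.exp (Complex.I * ((ψ - α - Real.sqrt 2 * θ : ℝ) : ℂ)) := by
    obtain ⟨s, hs⟩ := (homeomorphCircle (T := 1) one_ne_zero).surjective
      ⟨Complex.exp (Complex.I * ((ψ - α - Real.sqrt 2 * θ : ℝ) : ℂ)),
        mem_sphere_zero_iff_norm.mpr (norm_exp_I_real _)⟩
    refine ⟨s, ?_⟩
    rw [homeomorphCircle_apply] at hs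
    rw [hs]
  let h : Circ → ℂ := fun s => (Complex.exp (Complex.I * θ) +
    Complex.exp (Complex.I * ((Real.sqrt 2 * θ : ℝ) : ℂ)) * (toCircle s : ℂ)) / 2
  have hcont : Continuous h := by fun_prop
  have hhy : h y = w := by
    simp only [h]
    rw [hy, ← Complex.exp_add]
    have e1 : Complex.I * ((Real.sqrt 2 * θ : ℝ) : ℂ) +
        Complex.I * ((ψ - α - Real.sqrt 2 * θ : ℝ) : ℂ) = (ψ : ℂ) * Complex.I + -(α * Complex.I) := by
      push_cast; ring
    have e2 : Complex.I * (θ : ℂ) = (ψ : ℂ) * Complex.I + (α * Complex.I) := by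
      rw [hθ]; push_cast; ring
    rw [e1, e2, Complex.exp_add, Complex.exp_add, ← mul_add]
    have e3 : Complex.exp (α * Complex.I) + Complex.exp (-(α * Complex.I)) = 2 * Complex.cos α := by
      rw [Complex.cos]
      ring_nf
    rw [e3, ← Complex.ofReal_cos, hcos]
    have e4 : Complex.exp (ψ * Complex.I) * (2 * ((‖w‖ : ℝ) : ℂ)) / 2 =
        ((‖w‖ : ℝ) : ℂ) * Complex.exp (ψ * Complex.I) := by ring
    rw [e4]
    exact Complex.norm_mul_exp_arg_mul_I w
  have h1 := (mapClusterPt_nsmul y).continuousAt_comp (f := h) hcont.continuousAt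
  rw [hhy] at h1
  let xs : ℕ → ℝ := fun k => θ + 2 * π * k
  have hxs : Tendsto xs atTop atTop := by
    apply tendsto_atTop_add_const_left
    exact Tendsto.const_mul_atTop (by positivity) tendsto_natCast_atTop_atTop
  have h2 : h ∘ (fun k : ℕ => k • ((Real.sqrt 2 : ℝ) : Circ)) = Phi ∘ xs := by
    funext k
    simp only [Function.comp_apply, h, Phi, xs]
    have e1 : (k • ((Real.sqrt 2 : ℝ) : Circ)) = (((k : ℝ) * Real.sqrt 2 : ℝ) : Circ) := by
      rw [← AddCircle.coe_nsmul, nsmul_eq_mul]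
    rw [e1, toCircle_apply_mk]
    have e2 : Complex.exp (Complex.I * ((θ + 2 * π * (k : ℝ) : ℝ) : ℂ)) =
        Complex.exp (Complex.I * θ) := by
      have : Complex.I * ((θ + 2 * π * (k : ℝ) : ℝ) : ℂ) = Complex.I * θ +
          (k : ℤ) * (2 * π * Complex.I) := by push_cast; ring
      rw [this, Complex.exp_add, Complex.exp_int_mul_two_pi_mul_I, mul_one]
    rw [e2]
    congr 2
    rw [Circle.coe_exp, ← Complex.exp_add]
    congr 1
    push_cast; ring
  rw [h2] at h1
  exact h1.of_comp hxs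

theorem atTop_le_map_uu : atTop ≤ map uu (nb 0) := by
  intro S hS
  rw [mem_map] at hS
  rw [nb, mem_comap] at hS
  obtain ⟨U, hU, hUS⟩ := hS
  -- a small interval
  have hcoe : Continuous fun x : ℝ => (x : Circ) := AddCircle.continuous_mk' 1
  have h1 : ∀ᶠ x : ℝ in 𝓝 (0 : ℝ), (x : Circ) ∈ U := by
    have h2 : Tendsto (fun x : ℝ => (x : Circ)) (𝓝 0) (𝓝 (0 : Circ)) := by
      have := hcoe.tendsto 0
      rwa [AddCircle.coe_zero] at this
    exact h2 hU
  rw [Metric.eventually_nhds_iff] at h1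
  obtain ⟨δ0, hδ0, hδ⟩ := h1
  set δ := min δ0 1 with hδdef
  have hδpos : 0 < δ := lt_min hδ0 one_pos
  have hne : ∀ x ∈ Set.Ioo (0 : ℝ) δ, (x : Circ) ≠ 0 := by
    intro x hx h0
    rw [AddCircle.coe_eq_zero_iff] at h0
    obtain ⟨n, hn⟩ := h0
    simp only [zsmul_eq_mul, mul_one] at hn
    have h2 : x < 1 := hx.2.trans_le (min_le_right _ _)
    have h3 : (0 : ℝ) < n := by rw [hn]; exact hx.1
    have h4 : (n : ℝ) < 1 := by rw [hn]; exact h2
    have h5 : (0 : ℤ) < n := by exact_mod_cast h3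
    have h6 : n < (1 : ℤ) := by exact_mod_cast h4
    omega
  have hinU : ∀ x ∈ Set.Ioo (0 : ℝ) δ, (x : Circ) ∈ U := by
    intro x hx
    apply hδ
    rw [dist_zero_right, Real.norm_eq_abs, abs_of_pos hx.1]
    exact hx.2.trans_le (min_le_left _ _)
  let v : ℝ → ℝ := fun x => Real.log ‖LL (toCircle (x : Circ))‖
  have hv : ∀ x (hx : x ∈ Set.Ioo (0 : ℝ) δ), v x = uu ⟨(x : Circ), hne x hx⟩ := fun x hx => rfl
  have hvcont : ContinuousOn v (Set.Ioo 0 δ) := by
    intro x hx
    apply ContinuousAt.continuousWithinAt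
    have h2 : ContinuousAt LL (toCircle (x : Circ) : ℂ) :=
      (differentiableAt_LL (norm_tc _) (toCircle_ne_one ⟨_, hne x hx⟩)).continuousAt
    have h3 : ContinuousAt (fun x : ℝ => (toCircle (x : Circ) : ℂ)) x := by
      have : Continuous fun x : ℝ => (toCircle (x : Circ) : ℂ) := by
        have h4 : Continuous fun t : Circ => (toCircle t : ℂ) := by fun_prop
        exact h4.comp hcoe
      exact this.continuousAt
    have h5 : ContinuousAt (fun x : ℝ => LL (toCircle (x : Circ) : ℂ)) x :=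
      ContinuousAt.comp (f := fun x : ℝ => (toCircle (x : Circ) : ℂ)) h2 h3
    refine h5.norm.log ?_
    have := LL_mem (z := toCircle (x : Circ)) (norm_tc _) (toCircle_ne_one ⟨_, hne x hx⟩)
    exact norm_ne_zero_iff.mpr (Complex.slitPlane_ne_zero this)
  have hord := (isPreconnected_Ioo.image v hvcont).ordConnected
  have hx0 : δ / 2 ∈ Set.Ioo (0 : ℝ) δ := ⟨by positivity, by linarith⟩
  rw [mem_atTop_sets]
  refine ⟨v (δ / 2), fun y hy => ?_⟩
  -- a point where `v` is above `y`
  obtain ⟨x1, hx1, hvx1⟩ : ∃ x1 ∈ Set.Ioo (0 : ℝ) δ, y ≤ v x1 := by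
    have h2 := tendsto_uu.eventually (eventually_ge_atTop y)
    rw [nb, eventually_comap] at h2
    have h3 : Tendsto (fun x : ℝ => (x : Circ)) (𝓝[>] 0) (𝓝 (0 : Circ)) := by
      have := hcoe.tendsto 0
      rw [AddCircle.coe_zero] at this
      exact this.mono_left nhdsWithin_le_nhds
    have h4 := h3.eventually h2
    have h5 : ∀ᶠ x in 𝓝[>] (0 : ℝ), x ∈ Set.Ioo (0 : ℝ) δ := Ioo_mem_nhdsGT hδpos
    obtain ⟨x1, hx1, hx2⟩ := (h4.and h5).exists
    exact ⟨x1, hx2, by rw [hv x1 hx2]; exact hx1 ⟨_, hne x1 hx2⟩ rfl⟩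
  obtain ⟨x, hx, hxy⟩ := hord.out ⟨_, hx0, rfl⟩ ⟨_, hx1, rfl⟩ ⟨hy, hvx1⟩
  have h6 : (⟨(x : Circ), hne x hx⟩ : Om) ∈ uu ⁻¹' S := hUS (hinU x hx)
  rw [← hxy, hv x hx]
  exact h6

theorem cluster_phi {w : ℂ} (hw : ‖w‖ ≤ 1) : MapClusterPt w (nb 0) (fun t => Phi (uu t)) := by
  have h1 := mapClusterPt_Phi hw
  have h2 : map Phi atTop ≤ map (fun t => Phi (uu t)) (nb 0) := by
    have : map (fun t => Phi (uu t)) (nb 0) = map Phi (map uu (nb 0)) := by rw [map_map]; rfl
    rw [this]
    exact map_mono atTop_le_map_uu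
  exact ClusterPt.mono h1 h2

theorem half_mem {G H : Om →ᵇ ℂ} (hG : omHom G ∈ Hinf) (hH : omHom H ∈ Hinf) :
    omHom ((1 / 2 : ℂ) • (G + H)) ∈ Hinf := by
  rw [map_smul, map_add]
  exact Hinf_smul _ (Hinf_add hG hH)

/-- The data. -/
noncomputable def theData : Data where
  phi := fun t => Phi (uu t)
  phi_le := fun t => norm_Phi_le _
  cluster := fun w hw => cluster_phi hw
  f := (1 / 2 : ℂ) • (fb 1 + fb (Real.sqrt 2))
  g := (1 / 2 : ℂ) • (fb (-1) + fb (-Real.sqrt 2))
  f_mem := half_mem (fb_mem _) (fb_mem _)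
  g_mem := half_mem (fb_mem _) (fb_mem _)
  f_lim := by
    have h := ((fb_lim 1).add (fb_lim (Real.sqrt 2))).const_mul (1 / 2 : ℂ)
    rw [add_zero, mul_zero] at h
    refine h.congr ?_
    intro t
    rw [BoundedContinuousFunction.smul_apply, BoundedContinuousFunction.add_apply, smul_eq_mul, Phi]
    push_cast
    ring_nf
  g_lim := by
    have h := ((fb_lim (-1)).add (fb_lim (-Real.sqrt 2))).const_mul (1 / 2 : ℂ)
    rw [add_zero, mul_zero] at h
    refine h.congr ?_
    intro t
    rw [BoundedContinuousFunction.smul_apply, BoundedContinuousFunction.add_apply, smul_eq_mul, Phi,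
      map_div₀, map_add, ← Complex.ofReal_mul, conj_exp_I, conj_exp_I]
    simp only [map_ofNat]
    push_cast
    ring_nf

end Pool.Agent.Lib.MP_e9741b_an
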