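import Mathlib

/-!
Basic objects for the problem on subalgebras of `H^∞`: the algebra `L^∞` of the circle, `H^∞`,
inner functions, Douglas algebras `D`, the sets `I_D`, `QD`, `CD`, the Shilov boundary, and the
algebras of type A and of type B.
-/

set_option autoImplicit false

open MeasureTheory AddCircle
open scoped ENNReal ComplexConjugate

namespace Pool.Agent.Lib.MP_e9741b_an

/-- The unit circle, written as the additive circle `ℝ/ℤ`: the class of `t` stands for the point
`exp (2 π i t)` of the unit circle. -/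
abbrev Circ : Type := AddCircle (1 : ℝ)

/-- Normalised Lebesgue measure on the circle. -/
noncomputable abbrev mu : Measure Circ := haarAddCircle

/-- `L^∞` of the circle: classes of essentially bounded measurable functions modulo equality
almost everywhere, with the essential supremum norm. -/
abbrev Linf : Type := Lp ℂ ∞ mu

namespace Linf

/-- Multiplication of `L^∞`: the pointwise product of representatives. -/
noncomputable instance instMul : Mul Linf :=
  ⟨fun f g => ((Lp.memLp g).mul (Lp.memLp f) : MemLp (⇑f * ⇑g) ∞ mu).toLp (⇑f * ⇑g)⟩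

/-- The unit of `L^∞`: the constant function `1`. -/
noncomputable instance instOne : One Linf :=
  ⟨(memLp_top_const (1 : ℂ)).toLp (fun _ => (1 : ℂ))⟩

theorem coeFn_mul (f g : Linf) : ⇑(f * g) =ᵐ[mu] fun t => f t * g t :=
  MemLp.coeFn_toLp _

theorem coeFn_one : ⇑(1 : Linf) =ᵐ[mu] fun _ => (1 : ℂ) :=
  MemLp.coeFn_toLp _

theorem coeFn_add (f g : Linf) : ⇑(f + g) =ᵐ[mu] fun t => f t + g t :=
  Lp.coeFn_add f g

theorem coeFn_smul (c : ℂ) (f : Linf) : ⇑(c • f) =ᵐ[mu] fun t => c * f t :=
  Lp.coeFn_smul c f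

theorem coeFn_star (f : Linf) : ⇑(star f) =ᵐ[mu] fun t => conj (f t) :=
  Lp.coeFn_star f

theorem ae_norm_le (f : Linf) : ∀ᵐ t ∂mu, ‖f t‖ ≤ ‖f‖ := by
  have h := ae_le_eLpNormEssSup (f := f) (μ := mu)
  have hfin : eLpNormEssSup f mu ≠ ∞ := by
    rw [← eLpNorm_exponent_top]; exact (Lp.eLpNorm_ne_top f)
  filter_upwards [h] with t ht
  have h2 : ‖f‖ = (eLpNormEssSup f mu).toReal := by
    rw [Lp.norm_def, eLpNorm_exponent_top]
  rw [h2, ← toReal_enorm]
  exact ENNReal.toReal_mono hfin ht

theorem norm_le {f : Linf} {C : ℝ} (hC : 0 ≤ C) (h : ∀ᵐ t ∂mu, ‖f t‖ ≤ C) : ‖f‖ ≤ C := by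
  have := Lp.norm_le_of_ae_bound (p := ∞) hC h
  simpa using this

theorem left_distrib_aux (f g h : Linf) : f * (g + h) = f * g + f * h := by
  apply Lp.ext
  filter_upwards [coeFn_mul f (g + h), coeFn_add g h, coeFn_mul f g, coeFn_mul f h,
    coeFn_add (f * g) (f * h)] with t h1 h2 h3 h4 h5
  rw [h1, h2, h5, h3, h4]; ring

theorem right_distrib_aux (f g h : Linf) : (f + g) * h = f * h + g * h := by
  apply Lp.ext
  filter_upwards [coeFn_mul (f + g) h, coeFn_add f g, coeFn_mul f h, coeFn_mul g h,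
    coeFn_add (f * h) (g * h)] with t h1 h2 h3 h4 h5
  rw [h1, h2, h5, h3, h4]; ring

theorem zero_mul_aux (f : Linf) : 0 * f = 0 := by
  apply Lp.ext
  filter_upwards [coeFn_mul 0 f, Lp.coeFn_zero ℂ ∞ mu] with t h1 h2
  rw [h1, h2]; simp

theorem mul_zero_aux (f : Linf) : f * 0 = 0 := by
  apply Lp.ext
  filter_upwards [coeFn_mul f 0, Lp.coeFn_zero ℂ ∞ mu] with t h1 h2
  rw [h1, h2]; simp

theorem mul_assoc_aux (f g h : Linf) : f * g * h = f * (g * h) := by
  apply Lp.ext
  filter_upwards [coeFn_mul (f * g) h, coeFn_mul f g, coeFn_mul f (g * h),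
    coeFn_mul g h] with t h1 h2 h3 h4
  rw [h1, h2, h3, h4]; ring

theorem one_mul_aux (f : Linf) : 1 * f = f := by
  apply Lp.ext
  filter_upwards [coeFn_mul 1 f, coeFn_one] with t h1 h2
  rw [h1, h2]; simp

theorem mul_one_aux (f : Linf) : f * 1 = f := by
  apply Lp.ext
  filter_upwards [coeFn_mul f 1, coeFn_one] with t h1 h2
  rw [h1, h2]; simp

theorem mul_comm_aux (f g : Linf) : f * g = g * f := by
  apply Lp.ext
  filter_upwards [coeFn_mul f g, coeFn_mul g f] with t h1 h2
  rw [h1, h2]; ring

theorem norm_mul_le_aux (f g : Linf) : ‖f * g‖ ≤ ‖f‖ * ‖g‖ := by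
  apply norm_le (by positivity)
  filter_upwards [coeFn_mul f g, ae_norm_le f, ae_norm_le g] with t h1 h2 h3
  rw [h1, norm_mul]
  gcongr

theorem smul_mul_aux (c : ℂ) (f g : Linf) : c • f * g = c • (f * g) := by
  apply Lp.ext
  filter_upwards [coeFn_mul (c • f) g, coeFn_smul c f, coeFn_smul c (f * g),
    coeFn_mul f g] with t h1 h2 h3 h4
  rw [h1, h2, h3, h4]; ring

theorem mul_smul_aux (c : ℂ) (f g : Linf) : f * c • g = c • (f * g) := by
  apply Lp.ext
  filter_upwards [coeFn_mul f (c • g), coeFn_smul c g, coeFn_smul c (f * g),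
    coeFn_mul f g] with t h1 h2 h3 h4
  rw [h1, h2, h3, h4]; ring

theorem star_mul_aux (f g : Linf) : star (f * g) = star g * star f := by
  apply Lp.ext
  filter_upwards [coeFn_mul f g, coeFn_star (f * g), coeFn_mul (star g) (star f), coeFn_star f,
    coeFn_star g] with t h1 h2 h3 h4 h5
  rw [h2, h1, h3, h4, h5, map_mul]; ring

theorem star_add_aux (f g : Linf) : star (f + g) = star f + star g := by
  apply Lp.ext
  filter_upwards [coeFn_add f g, coeFn_star (f + g), coeFn_add (star f) (star g), coeFn_star f,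
    coeFn_star g] with t h1 h2 h3 h4 h5
  rw [h2, h1, h3, h4, h5, map_add]

theorem star_smul_aux (c : ℂ) (f : Linf) : star (c • f) = star c • star f := by
  apply Lp.ext
  filter_upwards [coeFn_smul c f, coeFn_star (c • f), coeFn_smul (star c) (star f),
    coeFn_star f] with t h1 h2 h3 h4
  rw [h2, h1, h3, h4, map_mul]; rfl

/-- `L^∞` is a commutative ring, with the product `instMul`, the unit `instOne` and Mathlib's
addition. -/
noncomputable instance instCommRing : CommRing Linf :=
  { (inferInstance : AddCommGroup Linf) with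
    mul := (· * ·)
    one := 1
    left_distrib := left_distrib_aux
    right_distrib := right_distrib_aux
    zero_mul := zero_mul_aux
    mul_zero := mul_zero_aux
    mul_assoc := mul_assoc_aux
    one_mul := one_mul_aux
    mul_one := mul_one_aux
    mul_comm := mul_comm_aux }

/-- `L^∞` is a normed ring, with Mathlib's norm of `Lp ℂ ∞ mu` (the essential supremum norm). -/
noncomputable instance instNormedCommRing : NormedCommRing Linf :=
  { (inferInstance : NormedAddCommGroup Linf), instCommRing with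
    norm_mul_le := norm_mul_le_aux }

/-- `L^∞` is a complex algebra, with Mathlib's scalar multiplication of `Lp ℂ ∞ mu`. -/
noncomputable instance instAlgebra : Algebra ℂ Linf :=
  Algebra.ofModule smul_mul_aux mul_smul_aux

/-- `L^∞` is a normed algebra. -/
noncomputable instance instNormedAlgebra : NormedAlgebra ℂ Linf :=
  { instAlgebra with
    norm_smul_le := fun c f => norm_smul_le c f }

/-- `L^∞` is a star ring, with Mathlib's star of `Lp ℂ ∞ mu` (pointwise complex conjugation). -/
noncomputable instance instStarRing : StarRing Linf where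
  star_mul := star_mul_aux
  star_add := star_add_aux

noncomputable instance instStarModule : StarModule ℂ Linf where
  star_smul := star_smul_aux

theorem norm_mul_self_le_aux (f : Linf) : ‖f‖ * ‖f‖ ≤ ‖star f * f‖ := by
  have h0 : ‖f‖ ≤ Real.sqrt ‖star f * f‖ := by
    apply norm_le (Real.sqrt_nonneg _)
    filter_upwards [ae_norm_le (star f * f), coeFn_mul (star f) f, coeFn_star f] with t h1 h2 h3
    apply Real.le_sqrt_of_sq_le
    rw [h2, h3, norm_mul, RCLike.norm_conj] at h1
    rwa [sq]
  calc ‖f‖ * ‖f‖ ≤ Real.sqrt ‖star f * f‖ * Real.sqrt ‖star f * f‖ := by gcongr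
    _ = ‖star f * f‖ := Real.mul_self_sqrt (norm_nonneg _)

noncomputable instance instCStarRing : CStarRing Linf where
  norm_mul_self_le := norm_mul_self_le_aux

end Linf

/-- `H^∞`, as a subset of `L^∞`: the functions all of whose negative Fourier coefficients
`∫ f(t) exp(-2 π i n t) dt`, `n < 0`, vanish. -/
def Hinf : Set Linf := {f | ∀ n : ℤ, n < 0 → fourierCoeff (⇑f) n = 0}

/-- Inner functions: elements of `H^∞` of modulus `1` almost everywhere on the circle. -/
def IsInner (I : Linf) : Prop := I ∈ Hinf ∧ ∀ᵐ t ∂mu, ‖I t‖ = 1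

/-- A Douglas algebra: a closed subalgebra of `L^∞` that contains `H^∞`. -/
def IsDouglas (D : Subalgebra ℂ Linf) : Prop :=
  IsClosed (D : Set Linf) ∧ Hinf ⊆ (D : Set Linf)

/-- `I_D`: the set of inner functions that are invertible in `D`. -/
def invInner (D : Subalgebra ℂ Linf) : Set Linf :=
  {I | IsInner I ∧ I ∈ D ∧ ∃ J ∈ D, I * J = 1}

/-- `QD = D ∩ conj D`. -/
def QD (D : Subalgebra ℂ Linf) : Set Linf := {f | f ∈ D ∧ star f ∈ D}

/-- `CD`: the closed self-adjoint subalgebra of `L^∞` generated by `I_D`. -/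
noncomputable def CD (D : Subalgebra ℂ Linf) : StarSubalgebra ℂ Linf :=
  (StarAlgebra.adjoin ℂ (invInner D)).topologicalClosure

/-- `S` is the Shilov boundary of the commutative Banach algebra `A`: the smallest closed subset `F`
of the maximal ideal space (the space of the characters with the Gelfand topology, Mathlib's
`WeakDual.characterSpace ℂ A`) such that the modulus of the Gelfand transform of each element of `A`
attains its maximum on `F`. -/
def IsShilovBoundary (A : Type) [NormedCommRing A] [NormedAlgebra ℂ A]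
    (S : Set (WeakDual.characterSpace ℂ A)) : Prop :=
  IsLeast {F : Set (WeakDual.characterSpace ℂ A) |
    IsClosed F ∧ ∀ g : A, ∃ m ∈ F, ∀ m' : WeakDual.characterSpace ℂ A, ‖m' g‖ ≤ ‖m g‖} S

/-- The set of the characters `m` of `A` with `|m(I)| = 1` for every `I` in the set `P`. -/
def unimodularOn (A : Type) [NormedCommRing A] [NormedAlgebra ℂ A] (P : Set A) :
    Set (WeakDual.characterSpace ℂ A) := {m | ∀ I ∈ P, ‖m I‖ = 1}

/-- Condition 1: `CDA ⊆ X ⊆ QDA` for some Douglas algebra `D`. -/
def Condition1 (X : Subalgebra ℂ Linf) : Prop :=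
  ∃ D : Subalgebra ℂ Linf, IsDouglas D ∧
    (CD D : Set Linf) ∩ Hinf ⊆ (X : Set Linf) ∧ (X : Set Linf) ⊆ QD D ∩ Hinf

/-- Condition 2: the Shilov boundary of `X` is the set of the characters `m` with `|m(I)| = 1` for
every inner function `I` in `X`. -/
def Condition2 (X : Subalgebra ℂ Linf) : Prop :=
  IsShilovBoundary X (unimodularOn X {I : X | IsInner (I : Linf)})

/-- Condition 3: if `f, I ∈ X`, `I` is inner and `f conj(I) ∈ H^∞`, then `f conj(I) ∈ X`. -/
def Condition3 (X : Subalgebra ℂ Linf) : Prop :=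
  ∀ f ∈ X, ∀ I ∈ X, IsInner I → f * star I ∈ Hinf → f * star I ∈ X

/-- Condition 4: if `f ∈ X` and `g = 1/f ∈ H^∞`, then `g ∈ X`. -/
def Condition4 (X : Subalgebra ℂ Linf) : Prop :=
  ∀ f ∈ X, ∀ g ∈ Hinf, f * g = 1 → g ∈ X

/-- Closed subalgebras of `H^∞` of type A. -/
structure IsTypeA (X : Subalgebra ℂ Linf) : Prop where
  /-- `X` is closed. -/
  closed : IsClosed (X : Set Linf)
  /-- `X ⊆ H^∞`. -/
  subset_Hinf : (X : Set Linf) ⊆ Hinf
  /-- Condition 1 -/
  cond1 : Condition1 X
  /-- Condition 2 -/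
  cond2 : Condition2 X
  /-- Condition 3 -/
  cond3 : Condition3 X
  /-- Condition 4 -/
  cond4 : Condition4 X

/-- `X` is of type B: `X = V ∩ H^∞` for some `C^*`-subalgebra `V` of `L^∞` (closed, self-adjoint) and
some Douglas algebra `D` with `CD ⊆ V ⊆ QD`. -/
def IsTypeB (X : Subalgebra ℂ Linf) : Prop :=
  ∃ V : StarSubalgebra ℂ Linf, IsClosed (V : Set Linf) ∧
    (∃ D : Subalgebra ℂ Linf, IsDouglas D ∧
      (CD D : Set Linf) ⊆ (V : Set Linf) ∧ (V : Set Linf) ⊆ QD D) ∧
    (X : Set Linf) = (V : Set Linf) ∩ Hinf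

end Pool.Agent.Lib.MP_e9741b_an
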