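import Mathlib

/-!
Facts on the disc algebra: functions continuous on the closed unit disc, holomorphic inside.
-/

set_option autoImplicit false

open Metric Filter Topology Set
open scoped ComplexConjugate NNReal ENNReal

namespace Pool.Agent.Lib.MP_e9741b_an

/-- `r` is continuous on the closed unit disc and holomorphic in the open unit disc. -/
def DA (r : ℂ → ℂ) : Prop := DiffContOnCl ℂ r (ball (0 : ℂ) 1)

theorem DA.continuousOn {r : ℂ → ℂ} (h : DA r) : ContinuousOn r (closedBall (0 : ℂ) 1) :=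
  h.continuousOn_ball

theorem DA.mul {r s : ℂ → ℂ} (hr : DA r) (hs : DA s) : DA (fun w => r w * s w) :=
  DiffContOnCl.smul hr hs

theorem DA.add {r s : ℂ → ℂ} (hr : DA r) (hs : DA s) : DA (fun w => r w + s w) :=
  DiffContOnCl.add hr hs

theorem DA_const (c : ℂ) : DA (fun _ => c) := diffContOnCl_const

theorem DA_id : DA (fun w => w) := differentiable_id.diffContOnCl

theorem DA_polynomial (p : Polynomial ℂ) : DA (fun w => p.eval w) := p.differentiable.diffContOnCl

theorem DA.inv {r : ℂ → ℂ} (hr : DA r) (h0 : ∀ w, ‖w‖ ≤ 1 → r w ≠ 0) : DA (fun w => (r w)⁻¹) := by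
  refine DiffContOnCl.inv hr ?_
  intro w hw
  rw [closure_ball _ one_ne_zero] at hw
  exact h0 w (by simpa using hw)

theorem DA.eq_of_norm_eq_one {r : ℂ → ℂ} (hr : DA r) (h1 : ∀ w, ‖w‖ ≤ 1 → ‖r w‖ = 1) :
    ∀ w, ‖w‖ ≤ 1 → r w = r 0 := by
  have hmax : IsMaxOn (norm ∘ r) (ball (0 : ℂ) 1) 0 := by
    intro w hw
    simp only [Function.comp_apply, mem_ofPred_eq]
    rw [h1 w (by simpa using (mem_ball_zero_iff.mp hw).le), h1 0 (by simp)]
  have := Complex.eqOn_closedBall_of_isMaxOn_norm hr hmax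
  intro w hw
  exact this (by simpa using hw)

theorem DA_of_tendstoUniformlyOn {R : ℕ → ℂ → ℂ} {r : ℂ → ℂ} (hR : ∀ n, DA (R n))
    (hu : TendstoUniformlyOn R r atTop (closedBall (0 : ℂ) 1)) : DA r := by
  constructor
  · have h1 : TendstoLocallyUniformlyOn R r atTop (ball (0 : ℂ) 1) :=
      (hu.mono ball_subset_closedBall).tendstoLocallyUniformlyOn
    exact h1.differentiableOn (Eventually.of_forall fun n => (hR n).1) isOpen_ball
  · rw [closure_ball _ one_ne_zero]
    exact hu.continuousOn (Frequently.of_forall fun n => (hR n).continuousOn)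

theorem DA.ne_conj {r : ℂ → ℂ} (hr : DA r) : ¬ ∀ w : ℂ, ‖w‖ ≤ 1 → r w = conj w := by
  intro h
  have h0 : DifferentiableAt ℂ r 0 := hr.differentiableAt isOpen_ball (by simp)
  have h1 : r =ᶠ[𝓝 0] fun w => conj w := by
    filter_upwards [ball_mem_nhds (0 : ℂ) one_pos] with w hw
    exact h w (by simpa using (mem_ball_zero_iff.mp hw).le)
  have h2 : DifferentiableAt ℂ (fun w : ℂ => conj w) 0 := h0.congr_of_eventuallyEq h1.symm
  have h3 := h2.hasFDerivAt.restrictScalars ℝ
  have h4 : HasFDerivAt (fun w : ℂ => conj w) (Complex.conjCLE : ℂ →L[ℝ] ℂ) 0 :=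
    Complex.conjCLE.hasFDerivAt
  have h5 := h3.unique h4
  have h6 : (fderiv ℂ (fun w : ℂ => conj w) 0) 1 = 1 := by
    have := congrArg (fun L : ℂ →L[ℝ] ℂ => L 1) h5
    simpa using this
  have h7 : (fderiv ℂ (fun w : ℂ => conj w) 0) Complex.I = -Complex.I := by
    have := congrArg (fun L : ℂ →L[ℝ] ℂ => L Complex.I) h5
    simpa using this
  have h8 : (fderiv ℂ (fun w : ℂ => conj w) 0) Complex.I =
      Complex.I * (fderiv ℂ (fun w : ℂ => conj w) 0) 1 := by
    conv_lhs => rw [show Complex.I = Complex.I • (1 : ℂ) by simp]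
    rw [map_smul]; rfl
  rw [h7, h6, mul_one] at h8
  have h9 := congrArg Complex.im h8
  simp at h9
  norm_num at h9

/-- Polynomials are dense in the disc algebra. -/
theorem DA.approx {r : ℂ → ℂ} (hr : DA r) {e : ℝ} (he : 0 < e) :
    ∃ p : Polynomial ℂ, ∀ w, ‖w‖ ≤ 1 → ‖r w - p.eval w‖ ≤ e := by
  -- dilation
  have huc : UniformContinuousOn r (closedBall (0 : ℂ) 1) :=
    (isCompact_closedBall (0 : ℂ) 1).uniformContinuousOn_of_continuous hr.continuousOn
  rw [Metric.uniformContinuousOn_iff] at huc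
  obtain ⟨d, hd, hd2⟩ := huc (e / 2) (by positivity)
  obtain ⟨a, ha0, ha1, had⟩ : ∃ a : ℝ, 0 < a ∧ a < 1 ∧ 1 - a < d := by
    refine ⟨max (1 / 2) (1 - d / 2), ?_, ?_, ?_⟩
    · exact lt_max_of_lt_left (by norm_num)
    · exact max_lt (by norm_num) (by linarith)
    · have := le_max_right (1 / 2) (1 - d / 2)
      linarith
  have hdil : ∀ w : ℂ, ‖w‖ ≤ 1 → ‖r w - r (a * w)‖ ≤ e / 2 := by
    intro w hw
    have h1 : w ∈ closedBall (0 : ℂ) 1 := by simpa using hw
    have h2 : (a : ℂ) * w ∈ closedBall (0 : ℂ) 1 := by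
      simp only [mem_closedBall, dist_zero_right, norm_mul, Complex.norm_real, Real.norm_eq_abs,
        abs_of_pos ha0]
      nlinarith [norm_nonneg w]
    have h3 : dist w (a * w) < d := by
      rw [dist_eq_norm]
      have : w - a * w = ((1 - a : ℝ) : ℂ) * w := by push_cast; ring
      rw [this, norm_mul, Complex.norm_real, Real.norm_eq_abs, abs_of_pos (by linarith)]
      nlinarith [norm_nonneg w]
    have := hd2 w h1 _ h2 h3
    rw [dist_eq_norm] at this
    exact this.le
  -- Taylor series in a disc of radius `b` between `a` and `1`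
  obtain ⟨b, hab, hb1⟩ := exists_between ha1
  obtain ⟨c, hac, hcb⟩ := exists_between hab
  have hb0 : 0 < b := ha0.trans hab
  have hc0 : 0 < c := ha0.trans hac
  lift b to ℝ≥0 using hb0.le
  lift c to ℝ≥0 using hc0.le
  have hseries := DifferentiableOn.hasFPowerSeriesOnBall (R := b) (c := (0 : ℂ)) (f := r)
    (hr.1.mono (closedBall_subset_ball hb1)) hb0
  have hunif := hseries.tendstoUniformlyOn (r' := c) (by
    rw [ENNReal.coe_lt_coe]; exact hcb)
  rw [Metric.tendstoUniformlyOn_iff] at hunif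
  obtain ⟨n, hn⟩ := (hunif (e / 2) (by positivity)).exists
  set P := cauchyPowerSeries r 0 b with hP
  refine ⟨∑ k ∈ Finset.range n, Polynomial.monomial k (P.coeff k * (a : ℂ) ^ k), ?_⟩
  intro w hw
  have hw2 : (a : ℂ) * w ∈ ball (0 : ℂ) (c : ℝ) := by
    rw [mem_ball_zero_iff, norm_mul, Complex.norm_real, Real.norm_eq_abs, abs_of_pos ha0]
    show a * ‖w‖ < c
    nlinarith [norm_nonneg w]
  have h1 := hn _ hw2
  rw [zero_add, dist_eq_norm] at h1
  have h2 : P.partialSum n (a * w) =
      (∑ k ∈ Finset.range n, Polynomial.monomial k (P.coeff k * (a : ℂ) ^ k)).eval w := by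
    rw [Polynomial.eval_finsetSum, FormalMultilinearSeries.partialSum]
    apply Finset.sum_congr rfl
    intro k _
    rw [Polynomial.eval_monomial, FormalMultilinearSeries.apply_eq_pow_smul_coeff, smul_eq_mul,
      mul_pow]
    ring
  rw [h2] at h1
  have h3 := norm_sub_le_norm_sub_add_norm_sub (r w) (r (a * w))
    ((∑ k ∈ Finset.range n, Polynomial.monomial k (P.coeff k * (a : ℂ) ^ k)).eval w)
  have h4 := hdil w hw
  linarith

end Pool.Agent.Lib.MP_e9741b_an
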