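import Mathlib

/-!
A finite dimensional shift invariant space of null sequences consists of summable sequences.
-/

set_option autoImplicit false

open Filter Topology Polynomial

namespace Pool.Agent.Lib.MP_e9741b_an

/-- The left shift on complex sequences. -/
def shiftL : (ℕ → ℂ) →ₗ[ℂ] (ℕ → ℂ) where
  toFun a := fun n => a (n + 1)
  map_add' _ _ := rfl
  map_smul' _ _ := rfl

theorem summable_of_recurrence {b : ℕ → ℂ} {m : ℂ} (hm : ‖m‖ < 1)
    (hc : Summable fun n => ‖b (n + 1) - m * b n‖) : Summable fun n => ‖b n‖ := by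
  set C := ∑' n, ‖b (n + 1) - m * b n‖ with hC
  have h1m : 0 < 1 - ‖m‖ := by linarith
  set K := (‖b 0‖ + C) / (1 - ‖m‖) with hK
  have hC0 : 0 ≤ C := tsum_nonneg fun _ => norm_nonneg _
  have hK0 : 0 ≤ K := by positivity
  have hKeq : ‖b 0‖ + C = K * (1 - ‖m‖) := by rw [hK]; field_simp
  have hpart : ∀ M, ∑ n ∈ Finset.range M, ‖b (n + 1) - m * b n‖ ≤ C := fun M =>
    hc.sum_le_tsum _ (fun _ _ => norm_nonneg _)
  have key : ∀ M, ∑ n ∈ Finset.range M, ‖b n‖ ≤ K := by
    intro M
    induction M with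
    | zero => simpa using hK0
    | succ M ih =>
      rw [Finset.sum_range_succ']
      have h2 : ∑ n ∈ Finset.range M, ‖b (n + 1)‖ ≤
          ∑ n ∈ Finset.range M, (‖m‖ * ‖b n‖ + ‖b (n + 1) - m * b n‖) := by
        apply Finset.sum_le_sum
        intro n _
        calc ‖b (n + 1)‖ = ‖m * b n + (b (n + 1) - m * b n)‖ := by ring_nf
          _ ≤ ‖m * b n‖ + ‖b (n + 1) - m * b n‖ := norm_add_le _ _
          _ = _ := by rw [norm_mul]
      rw [Finset.sum_add_distrib, ← Finset.mul_sum] at h2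
      have h3 : ‖m‖ * ∑ n ∈ Finset.range M, ‖b n‖ ≤ ‖m‖ * K := by gcongr
      have := hpart M
      nlinarith
  exact summable_of_sum_range_le (fun _ => norm_nonneg _) key

theorem summable_of_finite_shift (W : Submodule ℂ (ℕ → ℂ)) [FiniteDimensional ℂ W]
    (hW : ∀ a ∈ W, shiftL a ∈ W) (hz : ∀ a ∈ W, Tendsto a atTop (𝓝 0)) :
    ∀ a ∈ W, Summable fun n => ‖a n‖ := by
  set T : Module.End ℂ W := shiftL.restrict hW with hT
  have hTapp : ∀ (w : W) (n : ℕ), (T w : ℕ → ℂ) n = (w : ℕ → ℂ) (n + 1) := by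
    intro w n; rfl
  -- eigenvalues have modulus less than one
  have heig : ∀ m : ℂ, (minpoly ℂ T).IsRoot m → ‖m‖ < 1 := by
    intro m hm
    have h1 : T.HasEigenvalue m := Module.End.hasEigenvalue_of_isRoot hm
    obtain ⟨w, hw⟩ := h1.exists_hasEigenvector
    have h2 : T w = m • w := hw.apply_eq_smul
    have h3 : ∀ n, (w : ℕ → ℂ) n = m ^ n * (w : ℕ → ℂ) 0 := by
      intro n
      induction n with
      | zero => simp
      | succ n ih =>
        rw [← hTapp, h2]
        simp only [Submodule.coe_smul, Pi.smul_apply, smul_eq_mul, ih]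
        ring
    have h4 : (w : ℕ → ℂ) 0 ≠ 0 := by
      intro h0
      apply hw.2
      apply Subtype.ext
      funext n
      rw [h3 n, h0]; simp
    have h5 := hz w w.2
    by_contra hcon
    push Not at hcon
    have h6 : Tendsto (fun n => ‖(w : ℕ → ℂ) n‖) atTop (𝓝 0) := by simpa using h5.norm
    have h7 : ∀ n, ‖(w : ℕ → ℂ) 0‖ ≤ ‖(w : ℕ → ℂ) n‖ := by
      intro n
      rw [h3 n, norm_mul, norm_pow]
      have : 1 ≤ ‖m‖ ^ n := one_le_pow₀ hcon
      nlinarith [norm_nonneg ((w : ℕ → ℂ) 0)]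
    have h8 : ‖(w : ℕ → ℂ) 0‖ ≤ 0 := ge_of_tendsto' h6 h7
    exact h4 (norm_le_zero_iff.mp h8)
  -- induction on the roots
  have hind : ∀ s : Multiset ℂ, (∀ m ∈ s, ‖m‖ < 1) → ∀ w : W,
      (Summable fun n => ‖((aeval T (s.map fun m => (X - C m : ℂ[X])).prod w : W) : ℕ → ℂ) n‖) →
        Summable fun n => ‖(w : ℕ → ℂ) n‖ := by
    intro s
    induction s using Multiset.induction with
    | empty =>
      intro _ w hw
      simpa using hw
    | cons m s ih =>
      intro hs w hw
      apply ih (fun m' hm' => hs m' (Multiset.mem_cons_of_mem hm'))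
      apply summable_of_recurrence (hs m (Multiset.mem_cons_self m s))
      rw [Multiset.map_cons, Multiset.prod_cons] at hw
      convert hw using 2 with n
      rw [map_mul, Module.End.mul_apply]
      simp only [map_sub, aeval_X, aeval_C, LinearMap.sub_apply, Module.algebraMap_end_apply]
      rw [Submodule.coe_sub, Pi.sub_apply, hTapp]
      rfl
  intro a ha
  have hint : IsIntegral ℂ T := Algebra.IsIntegral.isIntegral T
  have hmonic := minpoly.monic hint
  have hsplit : (minpoly ℂ T).Splits := IsAlgClosed.splits _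
  have hprod := hsplit.eq_prod_roots_of_monic hmonic
  apply hind (minpoly ℂ T).roots (fun m hm => heig m (Polynomial.isRoot_of_mem_roots hm)) ⟨a, ha⟩
  have h0 : ((aeval T) (minpoly ℂ T) : Module.End ℂ W) = 0 := minpoly.aeval ℂ T
  rw [← hprod]
  have h1 : ∀ n, ‖(((aeval T) (minpoly ℂ T) : Module.End ℂ W) ⟨a, ha⟩ : ℕ → ℂ) n‖ = 0 := by
    intro n
    rw [h0]; simp
  exact (summable_zero (β := ℕ) (α := ℝ)).congr (fun n => (h1 n).symm)

end Pool.Agent.Lib.MP_e9741b_an
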