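import Pool.Agent.Lib.MP_e9741b_an.Fourier
import Pool.Agent.Lib.MP_e9741b_an.Shift

/-!
The Douglas algebra `H^∞ + C` (as the closure of the set of the functions whose Fourier coefficients
vanish far to the left), and the fact that the inner functions invertible in it are continuous.
-/

set_option autoImplicit false

open MeasureTheory AddCircle Filter Topology
open scoped ENNReal ComplexConjugate InnerProductSpace

namespace Pool.Agent.Lib.MP_e9741b_an

/-- The functions in `L^∞` whose Fourier coefficients vanish far to the left. -/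
noncomputable def D0 : Subalgebra ℂ Linf where
  carrier := {f | ∃ N : ℕ, ∀ n : ℤ, n < -(N : ℤ) → fourierCoeff (⇑f) n = 0}
  mul_mem' := by
    rintro f g ⟨N, hN⟩ ⟨M, hM⟩
    refine ⟨N + M, fun n hn => ?_⟩
    rw [Linf.fourierCoeff_mul]
    exact fourierCoeff_mul_eq_zero f.memLp_two g.memLp_two hN hM (by push_cast at hn; omega)
  add_mem' := by
    rintro f g ⟨N, hN⟩ ⟨M, hM⟩
    refine ⟨N + M, fun n hn => ?_⟩
    push_cast at hn
    rw [Linf.fourierCoeff_add, hN n (by omega), hM n (by omega), add_zero]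
  algebraMap_mem' := by
    intro c
    refine ⟨0, fun n hn => ?_⟩
    rw [Algebra.algebraMap_eq_smul_one, Linf.fourierCoeff_smul, one_mem_Hinf n (by simpa using hn),
      mul_zero]

/-- The Douglas algebra `H^∞ + C`. -/
noncomputable def DD : Subalgebra ℂ Linf := D0.topologicalClosure

theorem Hinf_subset_D0 {f : Linf} (hf : f ∈ Hinf) : f ∈ D0 := ⟨0, fun n hn => hf n (by simpa using hn)⟩

theorem ee_mem_D0 (m : ℤ) : ee m ∈ D0 := by
  refine ⟨m.natAbs, fun n hn => ?_⟩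
  rw [fourierCoeff_ee, if_neg (by omega)]

theorem isDouglas_DD : IsDouglas DD :=
  ⟨D0.isClosed_topologicalClosure, fun _ hf => D0.le_topologicalClosure (Hinf_subset_D0 hf)⟩

/-- Multiplication of `L^2` functions by `L^∞` functions. -/
noncomputable def mulL2 (g : Linf) : L2 →ₗ[ℂ] L2 where
  toFun k := ((Lp.memLp k).mul (Lp.memLp g) : MemLp (⇑g * ⇑k) 2 mu).toLp (⇑g * ⇑k)
  map_add' k l := by
    apply Lp.ext
    refine (MemLp.coeFn_toLp _).trans ?_
    refine EventuallyEq.trans ?_ (Lp.coeFn_add _ _).symm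
    filter_upwards [Lp.coeFn_add k l,
      MemLp.coeFn_toLp ((Lp.memLp k).mul (Lp.memLp g) : MemLp (⇑g * ⇑k) 2 mu),
      MemLp.coeFn_toLp ((Lp.memLp l).mul (Lp.memLp g) : MemLp (⇑g * ⇑l) 2 mu)] with t h1 h2 h3
    simp only [Pi.mul_apply, Pi.add_apply] at *
    rw [h1, h2, h3]; ring
  map_smul' c k := by
    apply Lp.ext
    refine (MemLp.coeFn_toLp _).trans ?_
    refine EventuallyEq.trans ?_ (Lp.coeFn_smul _ _).symm
    filter_upwards [Lp.coeFn_smul c k,
      MemLp.coeFn_toLp ((Lp.memLp k).mul (Lp.memLp g) : MemLp (⇑g * ⇑k) 2 mu)] with t h1 h2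
    simp only [Pi.mul_apply, Pi.smul_apply, smul_eq_mul, RingHom.id_apply] at *
    rw [h1, h2]; ring

theorem coeFn_mulL2 (g : Linf) (k : L2) : ⇑(mulL2 g k) =ᵐ[mu] fun t => g t * k t :=
  MemLp.coeFn_toLp ((Lp.memLp k).mul (Lp.memLp g) : MemLp (⇑g * ⇑k) 2 mu)

theorem norm_mulL2_le (g : Linf) (k : L2) : ‖mulL2 g k‖ ≤ ‖g‖ * ‖k‖ := by
  apply Lp.norm_le_mul_norm_of_ae_le_mul
  filter_upwards [coeFn_mulL2 g k, Linf.ae_norm_le g] with t h1 h2
  rw [h1, norm_mul]; gcongr

theorem norm_mulL2_of_unimodular (g : Linf) (hg : ∀ᵐ t ∂mu, ‖g t‖ = 1) (k : L2) :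
    ‖mulL2 g k‖ = ‖k‖ := by
  apply le_antisymm
  · apply Lp.norm_le_norm_of_ae_le
    filter_upwards [coeFn_mulL2 g k, hg] with t h1 h2
    rw [h1, norm_mul, h2, one_mul]
  · apply Lp.norm_le_norm_of_ae_le
    filter_upwards [coeFn_mulL2 g k, hg] with t h1 h2
    rw [h1, norm_mul, h2, one_mul]

theorem mulL2_mul (g h : Linf) (k : L2) : mulL2 (g * h) k = mulL2 g (mulL2 h k) := by
  apply Lp.ext
  filter_upwards [coeFn_mulL2 (g * h) k, coeFn_mulL2 g (mulL2 h k), coeFn_mulL2 h k,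
    Linf.coeFn_mul g h] with t h1 h2 h3 h4
  rw [h1, h2, h3, h4]; ring

theorem mulL2_sub (g h : Linf) (k : L2) : mulL2 (g - h) k = mulL2 g k - mulL2 h k := by
  apply Lp.ext
  refine EventuallyEq.trans ?_ (Lp.coeFn_sub _ _).symm
  filter_upwards [coeFn_mulL2 (g - h) k, coeFn_mulL2 g k, coeFn_mulL2 h k,
    Lp.coeFn_sub g h] with t h1 h2 h3 h4
  simp only [Pi.sub_apply] at *
  rw [h1, h2, h3, h4]; ring

/-- Fourier coefficient as a linear functional on `L^2`. -/
noncomputable def cf (n : ℤ) : L2 →ₗ[ℂ] ℂ where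
  toFun k := fourierCoeff (⇑k) n
  map_add' k l := by
    simp only [← fourierBasis_repr, map_add]; rfl
  map_smul' c k := by
    simp only [← fourierBasis_repr, map_smul]; rfl

theorem cf_apply (n : ℤ) (k : L2) : cf n k = fourierCoeff (⇑k) n := rfl

theorem cf_mulL2 (g : Linf) (k : L2) (n : ℤ) :
    cf n (mulL2 g k) = fourierCoeff (fun t => g t * k t) n := by
  rw [cf_apply, fourierCoeff_congr_ae (coeFn_mulL2 g k)]

theorem cf_mulL2_ee (m : ℤ) (k : L2) (n : ℤ) : cf n (mulL2 (ee m) k) = cf (n - m) k := by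
  rw [cf_mulL2]
  have h : (fun t => (ee m) t * k t) =ᵐ[mu] fun t => fourier m t * k t := by
    filter_upwards [coeFn_ee m] with t ht
    rw [ht]
  rw [fourierCoeff_congr_ae h, fourierCoeff_fourier_mul]; rfl

/-- The product of two `L^2` functions with support conditions. -/
theorem inner_eq_zero_of_cf {u v : L2} (hu : ∀ n : ℤ, 0 ≤ n → cf n u = 0)
    (hv : ∀ n : ℤ, n < 0 → cf n v = 0) : ⟪u, v⟫_ℂ = 0 := by
  have h := (fourierBasis (T := 1)).hasSum_inner_mul_inner u v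
  refine h.unique ?_
  convert hasSum_zero using 1
  funext i
  rcases lt_or_ge i 0 with h1 | h1
  · have : ⟪fourierBasis (T := 1) i, v⟫_ℂ = 0 := by
      rw [← fourierBasis.repr_apply_apply, fourierBasis_repr]; exact hv i h1
    rw [this, mul_zero]
  · have : ⟪u, fourierBasis (T := 1) i⟫_ℂ = 0 := by
      rw [← inner_conj_symm, ← fourierBasis.repr_apply_apply, fourierBasis_repr]
      rw [show fourierCoeff (⇑u) i = 0 from hu i h1]; simp
    rw [this, zero_mul]

theorem tendsto_cf (k : L2) : Tendsto (fun n : ℕ => cf n k) atTop (𝓝 0) := by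
  have h := (hasSum_sq_fourierCoeff (T := 1) k).summable
  have h1 : Tendsto (fun i : ℤ => ‖fourierCoeff (⇑k) i‖ ^ 2) cofinite (𝓝 0) :=
    h.tendsto_cofinite_zero
  have h2 : Tendsto (fun n : ℕ => (n : ℤ)) atTop cofinite := by
    rw [← Nat.cofinite_eq_atTop]
    exact (Nat.cast_injective (R := ℤ)).tendsto_cofinite
  have h3 := h1.comp h2
  rw [tendsto_zero_iff_norm_tendsto_zero]
  have h4 := (Real.continuous_sqrt.tendsto 0).comp h3
  simp only [Real.sqrt_zero] at h4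
  refine h4.congr ?_
  intro n
  simp only [Function.comp_apply, Real.sqrt_sq (norm_nonneg _)]
  rfl

/-- The model space: `k ∈ H^2` with `conj(I) k ⟂ H^2`. -/
noncomputable def modelSpace (I : Linf) : Submodule ℂ L2 where
  carrier := {k | (∀ n : ℤ, n < 0 → cf n k = 0) ∧ ∀ n : ℤ, 0 ≤ n → cf n (mulL2 (star I) k) = 0}
  add_mem' := by
    rintro k l ⟨h1, h2⟩ ⟨h3, h4⟩
    refine ⟨fun n hn => ?_, fun n hn => ?_⟩
    · rw [map_add, h1 n hn, h3 n hn, add_zero]
    · rw [map_add, map_add, h2 n hn, h4 n hn, add_zero]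
  zero_mem' := by
    refine ⟨fun n hn => ?_, fun n hn => ?_⟩ <;> simp
  smul_mem' := by
    rintro c k ⟨h1, h2⟩
    refine ⟨fun n hn => ?_, fun n hn => ?_⟩
    · rw [map_smul, h1 n hn, smul_zero]
    · rw [map_smul, map_smul, h2 n hn, smul_zero]

theorem ae_norm_ee (m : ℤ) : ∀ᵐ t ∂mu, ‖(ee m) t‖ = 1 := by
  filter_upwards [coeFn_ee m] with t ht
  rw [ht, fourier_apply, Circle.norm_coe]

theorem ae_norm_star {I : Linf} (hI : ∀ᵐ t ∂mu, ‖I t‖ = 1) : ∀ᵐ t ∂mu, ‖(star I : Linf) t‖ = 1 := by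
  filter_upwards [hI, Linf.coeFn_star I] with t h1 h2
  rw [h2, RCLike.norm_conj, h1]

theorem ae_norm_mul {f g : Linf} (hf : ∀ᵐ t ∂mu, ‖f t‖ = 1) (hg : ∀ᵐ t ∂mu, ‖g t‖ = 1) :
    ∀ᵐ t ∂mu, ‖(f * g : Linf) t‖ = 1 := by
  filter_upwards [hf, hg, Linf.coeFn_mul f g] with t h1 h2 h3
  rw [h3, norm_mul, h1, h2, one_mul]

theorem finite_modelSpace {I : Linf} (hI : ∀ᵐ t ∂mu, ‖I t‖ = 1) {N : ℕ} {h : Linf}
    (hh : h ∈ Hinf) (hlt : ‖ee N * star I - h‖ < 1) : FiniteDimensional ℂ (modelSpace I) := by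
  -- the coefficients of `conj(I) k` at `-1, ..., -N`
  let Lam : modelSpace I →ₗ[ℂ] (Fin N → ℂ) :=
    LinearMap.pi fun j => (cf (-(j : ℤ) - 1)).comp ((mulL2 (star I)).comp (modelSpace I).subtype)
  have hinj : Function.Injective Lam := by
    rw [← LinearMap.ker_eq_bot, LinearMap.ker_eq_bot']
    rintro ⟨k, hk1, hk2⟩ hk
    have hk3 : ∀ j : Fin N, cf (-(j : ℤ) - 1) (mulL2 (star I) k) = 0 := by
      intro j
      have := congrFun hk j
      simpa [Lam] using this
    set u : L2 := mulL2 (ee N * star I) k with hu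
    set v : L2 := mulL2 h k with hv
    have hu0 : ∀ n : ℤ, 0 ≤ n → cf n u = 0 := by
      intro n hn
      rw [hu, mulL2_mul, cf_mulL2_ee]
      rcases lt_or_ge (n - N) 0 with h1 | h1
      · have h2 := hk3 ⟨(N - 1 - n).toNat, by omega⟩
        have h3 : -(((⟨(N - 1 - n).toNat, by omega⟩ : Fin N) : ℕ) : ℤ) - 1 = n - N := by
          simp only
          omega
        rwa [h3] at h2
      · exact hk2 _ h1
    have hv0 : ∀ n : ℤ, n < 0 → cf n v = 0 := by
      intro n hn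
      rw [hv, cf_mulL2]
      exact fourierCoeff_mul_eq_zero (a := 0) (b := 0) h.memLp_two (Lp.memLp k) hh hk1
        (by simpa using hn)
    have hin := inner_eq_zero_of_cf hu0 hv0
    have hnu : ‖u‖ = ‖k‖ :=
      norm_mulL2_of_unimodular _ (ae_norm_mul (ae_norm_ee N) (ae_norm_star hI)) k
    have hsub : u - v = mulL2 (ee N * star I - h) k := by rw [mulL2_sub]
    have hle : ‖u - v‖ ≤ ‖ee N * star I - h‖ * ‖k‖ := by rw [hsub]; exact norm_mulL2_le _ _
    have hsq := @norm_sub_sq ℂ _ _ _ _ u v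
    rw [hin] at hsq
    simp only [map_zero, mul_zero, sub_zero] at hsq
    rw [hnu] at hsq
    have hk0 : ‖k‖ = 0 := by
      by_contra hne
      have hpos : 0 < ‖k‖ := lt_of_le_of_ne (norm_nonneg _) (Ne.symm hne)
      have h1 : ‖u - v‖ < ‖k‖ := by
        calc ‖u - v‖ ≤ ‖ee N * star I - h‖ * ‖k‖ := hle
          _ < 1 * ‖k‖ := by gcongr
          _ = ‖k‖ := one_mul _
      have h2 : ‖u - v‖ ^ 2 < ‖k‖ ^ 2 := by
        apply pow_lt_pow_left₀ h1 (norm_nonneg _) (by norm_num)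
      nlinarith [sq_nonneg ‖v‖]
    exact Subtype.ext (norm_eq_zero.mp hk0)
  exact Module.Finite.of_injective Lam hinj

end Pool.Agent.Lib.MP_e9741b_an
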