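import Pool.Agent.Lib.MP_e9741b_an.Defs

/-!
Fourier coefficients of products.
-/

set_option autoImplicit false

open MeasureTheory AddCircle
open scoped ENNReal ComplexConjugate InnerProductSpace

namespace Pool.Agent.Lib.MP_e9741b_an

/-- `L^2` of the circle. -/
abbrev L2 : Type := Lp ℂ 2 mu

theorem fourierCoeff_fourier_mul (m n : ℤ) (f : Circ → ℂ) :
    fourierCoeff (fun t => fourier m t * f t) n = fourierCoeff f (n - m) := by
  unfold fourierCoeff
  apply integral_congr_ae
  filter_upwards with t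
  rw [show -(n - m) = -n + m by ring, fourier_add]
  simp only [smul_eq_mul]; ring

theorem fourierCoeff_conj (n : ℤ) (f : Circ → ℂ) :
    fourierCoeff (fun t => conj (f t)) n = conj (fourierCoeff f (-n)) := by
  unfold fourierCoeff
  rw [← integral_conj]
  apply integral_congr_ae
  filter_upwards with t
  simp only [smul_eq_mul, map_mul]
  rw [← fourier_neg (n := - -n)]
  simp

/-- Parseval for the integral of a product. -/
theorem hasSum_integral_mul {f g : Circ → ℂ} (hf : MemLp f 2 mu) (hg : MemLp g 2 mu) :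
    HasSum (fun i : ℤ => fourierCoeff f (-i) * fourierCoeff g i) (∫ t, f t * g t ∂mu) := by
  have hf' : MemLp (fun t => conj (f t)) 2 mu := hf.star
  set F : L2 := hf'.toLp with hF
  set G : L2 := hg.toLp with hG
  have key := (fourierBasis (T := 1)).hasSum_inner_mul_inner F G
  have h1 : ∀ i : ℤ, fourierCoeff f (-i) * fourierCoeff g i =
      ⟪F, fourierBasis (T := 1) i⟫_ℂ * ⟪fourierBasis (T := 1) i, G⟫_ℂ := by
    intro i
    have a1 : ⟪fourierBasis (T := 1) i, G⟫_ℂ = fourierCoeff g i := by
      rw [← fourierBasis.repr_apply_apply, fourierBasis_repr]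
      rw [fourierCoeff_congr_ae (hg.coeFn_toLp)]
    have a2 : ⟪F, fourierBasis (T := 1) i⟫_ℂ = fourierCoeff f (-i) := by
      rw [← inner_conj_symm, ← fourierBasis.repr_apply_apply, fourierBasis_repr]
      rw [fourierCoeff_congr_ae (hf'.coeFn_toLp), fourierCoeff_conj]
      simp
    rw [a1, a2]
  have h2 : ⟪F, G⟫_ℂ = ∫ t, f t * g t ∂mu := by
    rw [L2.inner_def]
    apply integral_congr_ae
    filter_upwards [hf'.coeFn_toLp, hg.coeFn_toLp] with t e1 e2
    rw [hF, hG, e1, e2]
    simp only [RCLike.inner_apply', RCLike.conj_conj]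
  rw [← h2]
  exact key.congr_fun h1

theorem hasSum_fourierCoeff_mul {f g : Circ → ℂ} (hf : MemLp f 2 mu) (hg : MemLp g 2 mu)
    (n : ℤ) :
    HasSum (fun i : ℤ => fourierCoeff f (n - i) * fourierCoeff g i)
      (fourierCoeff (fun t => f t * g t) n) := by
  have hf' : MemLp (fun t => fourier (-n) t * f t) 2 mu := by
    refine hf.of_le_mul (c := 1) ?_ ?_
    · exact (map_continuous (fourier (-n))).aestronglyMeasurable.mul hf.1
    · filter_upwards with t
      rw [norm_mul, fourier_apply, Circle.norm_coe]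
  have := hasSum_integral_mul hf' hg
  have e : (fourierCoeff (fun t => f t * g t) n) = ∫ t, fourier (-n) t * f t * g t ∂mu := by
    unfold fourierCoeff
    apply integral_congr_ae
    filter_upwards with t
    simp only [smul_eq_mul]; ring
  rw [e]
  refine this.congr_fun ?_
  intro i
  rw [fourierCoeff_fourier_mul]
  congr 2
  ring

/-- If the Fourier coefficients of `f` vanish below `a` and those of `g` vanish below `b`, those of
`f g` vanish below `a + b`. -/
theorem fourierCoeff_mul_eq_zero {f g : Circ → ℂ} (hf : MemLp f 2 mu) (hg : MemLp g 2 mu)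
    {a b : ℤ} (ha : ∀ n < a, fourierCoeff f n = 0) (hb : ∀ n < b, fourierCoeff g n = 0)
    {n : ℤ} (hn : n < a + b) : fourierCoeff (fun t => f t * g t) n = 0 := by
  have h := hasSum_fourierCoeff_mul hf hg n
  refine h.unique ?_
  convert hasSum_zero using 1
  funext i
  rcases lt_or_ge i b with h1 | h1
  · rw [hb i h1, mul_zero]
  · rw [ha (n - i) (by omega), zero_mul]

theorem Linf.memLp_two (f : Linf) : MemLp f 2 mu := (Lp.memLp f).mono_exponent le_top

theorem Linf.integrable (f : Linf) : Integrable f mu :=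
  memLp_one_iff_integrable.mp ((Lp.memLp f).mono_exponent le_top)

theorem Linf.fourierCoeff_mul (f g : Linf) (n : ℤ) :
    fourierCoeff (⇑(f * g)) n = fourierCoeff (fun t => f t * g t) n := by
  rw [fourierCoeff_congr_ae (Linf.coeFn_mul f g)]

theorem Linf.fourierCoeff_star (f : Linf) (n : ℤ) :
    fourierCoeff (⇑(star f)) n = conj (fourierCoeff f (-n)) := by
  rw [fourierCoeff_congr_ae (Linf.coeFn_star f), fourierCoeff_conj]

theorem Linf.fourierCoeff_add (f g : Linf) (n : ℤ) :
    fourierCoeff (⇑(f + g)) n = fourierCoeff f n + fourierCoeff g n := by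
  have h : fourierCoeff (⇑(f + g)) = fourierCoeff (⇑f + ⇑g) :=
    fourierCoeff_congr_ae (Lp.coeFn_add f g)
  rw [h, fourierCoeff.add f.integrable g.integrable]
  rfl

theorem Linf.fourierCoeff_smul (c : ℂ) (f : Linf) (n : ℤ) :
    fourierCoeff (⇑(c • f)) n = c * fourierCoeff f n := by
  rw [fourierCoeff_congr_ae (Linf.coeFn_smul c f), fourierCoeff.const_mul]

theorem Linf.norm_fourierCoeff_le (f : Linf) (n : ℤ) : ‖fourierCoeff f n‖ ≤ ‖f‖ := by
  unfold fourierCoeff
  have h : ∀ᵐ t ∂mu, ‖fourier (-n) t • f t‖ ≤ ‖f‖ := by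
    filter_upwards [Linf.ae_norm_le f] with t ht
    rw [norm_smul, fourier_apply, Circle.norm_coe, one_mul]
    exact ht
  simpa using norm_integral_le_of_norm_le_const h

/-- The Fourier coefficient as a continuous linear functional on `L^∞`. -/
noncomputable def Linf.coeffL (n : ℤ) : Linf →L[ℂ] ℂ :=
  LinearMap.mkContinuous
    { toFun := fun f => fourierCoeff (⇑f) n
      map_add' := fun f g => Linf.fourierCoeff_add f g n
      map_smul' := fun c f => Linf.fourierCoeff_smul c f n } 1
    (fun f => by simpa using Linf.norm_fourierCoeff_le f n)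

theorem Linf.coeffL_apply (n : ℤ) (f : Linf) : Linf.coeffL n f = fourierCoeff (⇑f) n := rfl

theorem isClosed_Hinf : IsClosed Hinf := by
  have : Hinf = ⋂ n : ℤ, ⋂ _ : n < 0, {f : Linf | Linf.coeffL n f = 0} := by
    ext f; simp [Hinf, Linf.coeffL_apply]
  rw [this]
  exact isClosed_iInter fun n => isClosed_iInter fun _ =>
    isClosed_eq (Linf.coeffL n).continuous continuous_const

theorem Hinf_mul {f g : Linf} (hf : f ∈ Hinf) (hg : g ∈ Hinf) : f * g ∈ Hinf := by
  intro n hn
  rw [Linf.fourierCoeff_mul]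
  exact fourierCoeff_mul_eq_zero (a := 0) (b := 0) f.memLp_two g.memLp_two hf hg (by simpa using hn)

theorem Hinf_add {f g : Linf} (hf : f ∈ Hinf) (hg : g ∈ Hinf) : f + g ∈ Hinf := by
  intro n hn
  rw [Linf.fourierCoeff_add, hf n hn, hg n hn, add_zero]

theorem Hinf_smul (c : ℂ) {f : Linf} (hf : f ∈ Hinf) : c • f ∈ Hinf := by
  intro n hn
  rw [Linf.fourierCoeff_smul, hf n hn, mul_zero]

/-- `fourier n` as an element of `L^∞`. -/
noncomputable def ee (n : ℤ) : Linf := (ContinuousMap.toLp (E := ℂ) ∞ mu ℂ (fourier n))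

theorem coeFn_ee (n : ℤ) : ⇑(ee n) =ᵐ[mu] fun t => fourier n t :=
  ContinuousMap.coeFn_toLp mu (fourier n)

theorem fourierCoeff_ee_mul (m n : ℤ) (f : Linf) :
    fourierCoeff (⇑(ee m * f)) n = fourierCoeff f (n - m) := by
  rw [← fourierCoeff_fourier_mul, Linf.fourierCoeff_mul]
  have h : (fun t => (ee m) t * f t) =ᵐ[mu] fun t => fourier m t * f t := by
    filter_upwards [coeFn_ee m] with t ht
    rw [ht]
  rw [fourierCoeff_congr_ae h]

theorem ee_zero : ee 0 = 1 := by
  apply Lp.ext
  filter_upwards [coeFn_ee 0, Linf.coeFn_one] with t h1 h2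
  rw [h1, h2]; simp

theorem ee_add (m n : ℤ) : ee (m + n) = ee m * ee n := by
  apply Lp.ext
  filter_upwards [coeFn_ee (m + n), coeFn_ee m, coeFn_ee n, Linf.coeFn_mul (ee m) (ee n)]
    with t h1 h2 h3 h4
  rw [h1, h4, h2, h3, fourier_add]

theorem fourierCoeff_ee (m n : ℤ) : fourierCoeff (⇑(ee m)) n = if n = m then 1 else 0 := by
  rw [fourierCoeff_congr_ae (coeFn_ee m)]
  have := fourierCoeff_fourier (T := 1) m
  rw [show (fun t => (fourier m : C(Circ, ℂ)) t) = ⇑(fourier m : C(Circ, ℂ)) from rfl, this]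
  simp [Pi.single_apply]

theorem one_mem_Hinf : (1 : Linf) ∈ Hinf := by
  intro n hn
  rw [← ee_zero, fourierCoeff_ee, if_neg (by omega)]

theorem ee_mem_Hinf {m : ℤ} (hm : 0 ≤ m) : ee m ∈ Hinf := by
  intro n hn
  rw [fourierCoeff_ee, if_neg (by omega)]

end Pool.Agent.Lib.MP_e9741b_an
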