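import Pool.Agent.Lib.MP_e9741b_an.Douglas

/-!
The inner functions that are invertible in `H^∞ + C` are continuous.
-/

set_option autoImplicit false

open MeasureTheory AddCircle Filter Topology
open scoped ENNReal ComplexConjugate InnerProductSpace

namespace Pool.Agent.Lib.MP_e9741b_an

/-- The constant function `1` in `L^2`. -/
noncomputable def one2 : L2 := fourierLp 2 0

theorem coeFn_one2 : ⇑one2 =ᵐ[mu] fun _ => (1 : ℂ) := by
  filter_upwards [coeFn_fourierLp (T := 1) 2 0] with t ht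
  rw [one2, ht]; simp

theorem cf_one2 (n : ℤ) : cf n one2 = if n = 0 then 1 else 0 := by
  rw [cf_apply, fourierCoeff_congr_ae coeFn_one2]
  have h := fourierCoeff_fourier (T := 1) 0
  have h2 : (fun _ : Circ => (1 : ℂ)) = ⇑(fourier 0 : C(Circ, ℂ)) := by
    funext t; simp
  rw [h2, h]; simp [Pi.single_apply]

theorem cf_mulL2_one2 (g : Linf) (n : ℤ) : cf n (mulL2 g one2) = fourierCoeff (⇑g) n := by
  rw [cf_mulL2]
  have h : (fun t => g t * one2 t) =ᵐ[mu] ⇑g := by
    filter_upwards [coeFn_one2] with t ht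
    rw [ht, mul_one]
  rw [fourierCoeff_congr_ae h]

/-- The backward shift of `L^2` function (adapted to `H^2`). -/
noncomputable def bshift (k : L2) : L2 := mulL2 (ee (-1)) (k - (cf 0 k) • one2)

theorem cf_bshift (k : L2) (n : ℤ) :
    cf n (bshift k) = cf (n + 1) k - cf 0 k * (if n + 1 = 0 then 1 else 0) := by
  rw [bshift, cf_mulL2_ee, map_sub, map_smul, cf_one2, smul_eq_mul]
  congr 2

theorem mem_modelSpace_bshift {I : Linf} (hI : IsInner I) {k : L2}
    (h1 : ∀ n : ℤ, n < 0 → cf n k = 0)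
    (h2 : ∀ n : ℤ, 0 < n → cf n (mulL2 (star I) k) = 0) : bshift k ∈ modelSpace I := by
  refine ⟨fun n hn => ?_, fun n hn => ?_⟩
  · rw [cf_bshift]
    rcases eq_or_ne (n + 1) 0 with h | h
    · rw [if_pos h, h]; ring
    · rw [if_neg h, h1 (n + 1) (by omega)]; ring
  · rw [bshift, ← mulL2_mul, mul_comm (star I) (ee (-1)), mulL2_mul, cf_mulL2_ee, map_sub, map_sub,
      h2 (n - -1) (by omega), map_smul, map_smul, cf_mulL2_one2, Linf.fourierCoeff_star,
      hI.1 (-(n - -1)) (by omega)]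
    simp

theorem star_mul_self {I : Linf} (hI : ∀ᵐ t ∂mu, ‖I t‖ = 1) : star I * I = 1 := by
  apply Lp.ext
  filter_upwards [hI, Linf.coeFn_mul (star I) I, Linf.coeFn_star I, Linf.coeFn_one]
    with t h1 h2 h3 h4
  rw [h2, h3, h4, mul_comm, RCLike.mul_conj, h1]; simp

theorem mulL2_one (k : L2) : mulL2 1 k = k := by
  apply Lp.ext
  filter_upwards [coeFn_mulL2 1 k, Linf.coeFn_one] with t h1 h2
  rw [h1, h2, one_mul]

theorem summable_of_inner {I : Linf} (hI : IsInner I)
    (hfin : FiniteDimensional ℂ (modelSpace I)) :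
    Summable fun n : ℤ => fourierCoeff (⇑I) n := by
  let Psi : L2 →ₗ[ℂ] (ℕ → ℂ) := LinearMap.pi fun n : ℕ => cf (n : ℤ)
  have hPsi : ∀ (k : L2) (n : ℕ), Psi k n = cf (n : ℤ) k := fun k n => rfl
  let W : Submodule ℂ (ℕ → ℂ) := (modelSpace I).map Psi
  have hWfin : FiniteDimensional ℂ W := Module.Finite.map _ _
  have hW : ∀ a ∈ W, shiftL a ∈ W := by
    rintro a ⟨k, hk, rfl⟩
    refine ⟨bshift k, mem_modelSpace_bshift hI hk.1 (fun n hn => hk.2 n hn.le), ?_⟩
    funext n
    rw [hPsi, cf_bshift, if_neg (by omega)]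
    show _ = cf ((n + 1 : ℕ) : ℤ) k
    push_cast; ring
  have hz : ∀ a ∈ W, Tendsto a atTop (𝓝 0) := by
    rintro a ⟨k, hk, rfl⟩
    exact tendsto_cf k
  have key := summable_of_finite_shift W hW hz
  -- the backward shift of `I`
  have hmem : bshift (mulL2 I one2) ∈ modelSpace I := by
    apply mem_modelSpace_bshift hI
    · intro n hn
      rw [cf_mulL2_one2]; exact hI.1 n hn
    · intro n hn
      rw [← mulL2_mul, star_mul_self hI.2, mulL2_one, cf_one2, if_neg (by omega)]
  have h1 := key _ ⟨_, hmem, rfl⟩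
  have h2 : Summable fun n : ℕ => fourierCoeff (⇑I) ((n : ℤ) + 1) := by
    apply Summable.of_norm
    refine h1.congr (fun n => ?_)
    rw [hPsi, cf_bshift, if_neg (by omega), cf_mulL2_one2]
    simp
  have h3 : Summable fun n : ℕ => fourierCoeff (⇑I) (n : ℤ) := by
    rw [← summable_nat_add_iff 1]
    refine h2.congr (fun n => ?_)
    push_cast; rfl
  apply Summable.of_nat_of_neg_add_one h3
  convert summable_zero with n
  exact hI.1 _ (by omega)

/-- Continuous functions as elements of `L^∞`. -/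
noncomputable def contHom : C(Circ, ℂ) →⋆ₐ[ℂ] Linf where
  toFun c := ContinuousMap.toLp (E := ℂ) ∞ mu ℂ c
  map_one' := by
    apply Lp.ext
    filter_upwards [ContinuousMap.coeFn_toLp (𝕜 := ℂ) (p := ∞) mu (1 : C(Circ, ℂ)), Linf.coeFn_one]
      with t h1 h2
    rw [h1, h2]; rfl
  map_mul' c d := by
    apply Lp.ext
    filter_upwards [ContinuousMap.coeFn_toLp (𝕜 := ℂ) (p := ∞) mu (c * d),
      Linf.coeFn_mul (ContinuousMap.toLp (E := ℂ) ∞ mu ℂ c) (ContinuousMap.toLp (E := ℂ) ∞ mu ℂ d),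
      ContinuousMap.coeFn_toLp (𝕜 := ℂ) (p := ∞) mu c,
      ContinuousMap.coeFn_toLp (𝕜 := ℂ) (p := ∞) mu d] with t h1 h2 h3 h4
    rw [h1, h2, h3, h4]; rfl
  map_zero' := map_zero _
  map_add' c d := map_add _ c d
  commutes' r := by
    have h0 : algebraMap ℂ Linf r = r • (1 : Linf) := Algebra.algebraMap_eq_smul_one r
    rw [h0]
    apply Lp.ext
    filter_upwards [ContinuousMap.coeFn_toLp (𝕜 := ℂ) (p := ∞) mu (algebraMap ℂ C(Circ, ℂ) r),
      Linf.coeFn_smul r 1, Linf.coeFn_one] with t h1 h2 h3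
    rw [h1, h2, h3]; simp
  map_star' c := by
    apply Lp.ext
    filter_upwards [ContinuousMap.coeFn_toLp (𝕜 := ℂ) (p := ∞) mu (star c),
      Linf.coeFn_star (ContinuousMap.toLp (E := ℂ) ∞ mu ℂ c),
      ContinuousMap.coeFn_toLp (𝕜 := ℂ) (p := ∞) mu c] with t h1 h2 h3
    rw [h1, h2, h3]; rfl

theorem coeFn_contHom (c : C(Circ, ℂ)) : ⇑(contHom c) =ᵐ[mu] c :=
  ContinuousMap.coeFn_toLp mu c

theorem continuous_contHom : Continuous contHom :=
  (ContinuousMap.toLp (E := ℂ) ∞ mu ℂ).continuous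

theorem contHom_fourier (n : ℤ) : contHom (fourier n) = ee n := rfl

theorem norm_contHom (c : C(Circ, ℂ)) : ‖contHom c‖ = ‖c‖ := by
  apply le_antisymm
  · apply Linf.norm_le (norm_nonneg _)
    filter_upwards [coeFn_contHom c] with t ht
    rw [ht]; exact c.norm_coe_le_norm t
  · rw [ContinuousMap.norm_le _ (norm_nonneg _)]
    have h1 : ∀ᵐ t ∂mu, ‖c t‖ ≤ ‖contHom c‖ := by
      filter_upwards [coeFn_contHom c, Linf.ae_norm_le (contHom c)] with t h1 h2
      rwa [← h1]
    have h2 := Measure.dense_of_ae h1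
    have h3 : IsClosed {t | ‖c t‖ ≤ ‖contHom c‖} :=
      isClosed_le (by fun_prop) continuous_const
    have h4 := h3.closure_eq ▸ h2.closure_eq
    intro t
    have : t ∈ {t | ‖c t‖ ≤ ‖contHom c‖} := by rw [h4]; trivial
    exact this

theorem isometry_contHom : Isometry contHom :=
  AddMonoidHomClass.isometry_of_norm contHom norm_contHom

/-- An inner function invertible in the Douglas algebra `H^∞ + C` is continuous. -/
theorem continuous_of_invInner {I : Linf} (hI : I ∈ invInner DD) : ∃ c : C(Circ, ℂ), contHom c = I := by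
  obtain ⟨hin, -, J, hJ, hIJ⟩ := hI
  have hJ2 : J = star I := by
    calc J = (star I * I) * J := by rw [star_mul_self hin.2, one_mul]
      _ = star I * (I * J) := by ring
      _ = star I := by rw [hIJ, mul_one]
  rw [hJ2] at hJ
  have hJ3 : star I ∈ closure (D0 : Set Linf) := hJ
  rw [Metric.mem_closure_iff] at hJ3
  obtain ⟨g, hg, hdist⟩ := hJ3 1 one_pos
  obtain ⟨N, hN⟩ := hg
  rw [dist_eq_norm] at hdist
  have hh : ee N * g ∈ Hinf := by
    intro n hn
    rw [fourierCoeff_ee_mul]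
    exact hN _ (by omega)
  have hlt : ‖ee N * star I - ee N * g‖ < 1 := by
    rw [← mul_sub]
    have h1 : ‖ee (N : ℤ)‖ ≤ 1 := by
      apply Linf.norm_le zero_le_one
      filter_upwards [ae_norm_ee (N : ℤ)] with t ht
      exact ht.le
    calc ‖ee (N : ℤ) * (star I - g)‖ ≤ ‖ee (N : ℤ)‖ * ‖star I - g‖ := norm_mul_le _ _
      _ ≤ 1 * ‖star I - g‖ := by gcongr
      _ < 1 := by rw [one_mul]; exact hdist
  have hfin := finite_modelSpace hin.2 hh hlt
  have hsum := summable_of_inner hin hfin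
  -- the continuous function with the Fourier coefficients of `I`
  have hs2 : Summable fun n : ℤ => fourierCoeff (⇑I) n • (fourier n : C(Circ, ℂ)) := by
    apply Summable.of_norm
    refine hsum.norm.congr (fun n => ?_)
    rw [norm_smul, fourier_norm, mul_one]
  obtain ⟨c, hc⟩ := hs2
  refine ⟨c, ?_⟩
  have h1 := hc.mapL (ContinuousMap.toLp (E := ℂ) 2 mu ℂ)
  have h2 := hasSum_fourier_series_L2 (T := 1) (mulL2 I one2)
  have h3 : ∀ n : ℤ, fourierCoeff (⇑(mulL2 I one2)) n = fourierCoeff (⇑I) n :=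
    fun n => cf_mulL2_one2 I n
  simp_rw [h3] at h2
  have h4 : (ContinuousMap.toLp (E := ℂ) 2 mu ℂ) c = mulL2 I one2 := by
    refine h1.unique ?_
    refine h2.congr_fun ?_
    intro n
    rw [map_smul]
  apply Lp.ext
  have h5 : ⇑((ContinuousMap.toLp (E := ℂ) 2 mu ℂ) c) =ᵐ[mu] c := ContinuousMap.coeFn_toLp mu c
  rw [h4] at h5
  filter_upwards [h5, coeFn_contHom c, coeFn_mulL2 I one2, coeFn_one2] with t e1 e2 e3 e4
  rw [e2, ← e1, e3, e4, mul_one]

theorem CD_subset : (CD DD : Set Linf) ⊆ Set.range contHom := by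
  have h1 : CD DD ≤ (contHom.range : StarSubalgebra ℂ Linf) := by
    apply StarSubalgebra.topologicalClosure_minimal
    · rw [StarAlgebra.adjoin_le_iff]
      intro I hI
      obtain ⟨c, hc⟩ := continuous_of_invInner hI
      exact ⟨c, hc⟩
    · exact isometry_contHom.isClosedEmbedding.isClosed_range
  exact h1

theorem contHom_mem_DD (c : C(Circ, ℂ)) : contHom c ∈ DD := by
  have h1 : c ∈ (Submodule.span ℂ (Set.range (@fourier 1))).topologicalClosure := by
    rw [span_fourier_closure_eq_top]; trivial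
  have h2 : c ∈ closure (Submodule.span ℂ (Set.range (@fourier 1)) : Set C(Circ, ℂ)) := h1
  have h3 : contHom c ∈ closure (contHom '' (Submodule.span ℂ (Set.range (@fourier 1)) : Set C(Circ, ℂ))) :=
    image_closure_subset_closure_image continuous_contHom ⟨c, h2, rfl⟩
  refine closure_mono ?_ h3
  rintro _ ⟨d, hd, rfl⟩
  induction hd using Submodule.span_induction with
  | mem x hx =>
    obtain ⟨n, rfl⟩ := hx
    rw [contHom_fourier]; exact ee_mem_D0 n
  | zero => rw [map_zero]; exact D0.zero_mem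
  | add x y _ _ hx hy => rw [map_add]; exact D0.add_mem hx hy
  | smul a x _ hx => rw [map_smul]; exact D0.smul_mem hx a

end Pool.Agent.Lib.MP_e9741b_an
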