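import Pool.Agent.Lib.MP_e9741b_an.Shilov

/-!
The algebra `X` is of type A and not of type B.
-/

set_option autoImplicit false

open MeasureTheory AddCircle Filter Topology WeakDual
open scoped ENNReal ComplexConjugate InnerProductSpace BoundedContinuousFunction

namespace Pool.Agent.Lib.MP_e9741b_an

variable (d : Data)

theorem Asym.star_const {J : Om →ᵇ ℂ} {c : ℂ} (h : Asym d J fun _ => c) :
    Asym d (star J : Om →ᵇ ℂ) fun _ => conj c := by
  have h1 := (Complex.continuous_conj.tendsto (0 : ℂ)).comp h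
  rw [map_zero] at h1
  refine h1.congr ?_
  intro t
  simp only [Function.comp_apply, map_sub]
  rfl

theorem cond3 : ∀ f ∈ XX d, ∀ I ∈ XX d, IsInner I → f * star I ∈ Hinf → f * star I ∈ XX d := by
  rintro _ ⟨F, hF, rfl⟩ _ ⟨J, hJ, rfl⟩ hin hmem
  obtain ⟨hF1, r, hr, hF2⟩ := hF
  obtain ⟨hJ1, s, hs, hJ2⟩ := hJ
  have hin' : IsInner (omHom J) := hin
  have h1 : ∀ w : ℂ, ‖w‖ ≤ 1 → ‖s w‖ = 1 := by
    intro w hw
    have := neBot_nbw d hw
    have h2 := (hJ2.tendsto d hs hw).norm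
    refine tendsto_nhds_unique h2 ?_
    refine tendsto_const_nhds.congr ?_
    intro t
    exact (norm_eq_one_of_inner hin' t).symm
  have h3 := hs.eq_of_norm_eq_one h1
  have h4 : Asym d J fun _ => s 0 := by
    refine Tendsto.congr ?_ hJ2
    intro t
    rw [h3 _ (d.phi_le t)]
  have h5 := hF2.mul d (h4.star_const d) hr
  refine ⟨F * star J, ⟨?_, _, hr.mul (DA_const _), h5⟩, ?_⟩
  · rw [map_mul, map_star]; exact hmem
  · show omHom (F * star J) = omHom F * star (omHom J)
    rw [map_mul, map_star]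

theorem cond4 : ∀ f ∈ XX d, ∀ g ∈ Hinf, f * g = 1 → g ∈ XX d := by
  rintro _ ⟨F, hF, rfl⟩ g hg hfg
  obtain ⟨hF1, r, hr, hF2⟩ := hF
  have hfg' : omHom F * g = 1 := hfg
  set M := ‖g‖ with hM
  have hM0 : 0 ≤ M := norm_nonneg _
  have hprod : ∀ᵐ t ∂mu, ext F t * g t = 1 := by
    filter_upwards [coeFn_omHom F, Linf.coeFn_mul (omHom F) g, Linf.coeFn_one] with t h1 h2 h3
    rw [← h1, ← h2, hfg', h3]
  have hcl : IsClosed {z : ℂ | 1 ≤ ‖z‖ * M} := isClosed_le continuous_const (by fun_prop)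
  have hlow : ∀ t, 1 ≤ ‖F t‖ * M := by
    apply forall_of_ae_closed F.continuous hcl
    filter_upwards [hprod, Linf.ae_norm_le g] with t h1 h2
    show 1 ≤ ‖ext F t‖ * M
    calc (1 : ℝ) = ‖ext F t * g t‖ := by rw [h1, norm_one]
      _ = ‖ext F t‖ * ‖g t‖ := norm_mul _ _
      _ ≤ ‖ext F t‖ * M := by gcongr
  have hne : ∀ t, F t ≠ 0 := by
    intro t h0
    have := hlow t
    rw [h0, norm_zero, zero_mul] at this
    linarith
  have hinv : ∀ t, ‖(F t)⁻¹‖ ≤ M := by
    intro t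
    rw [norm_inv, inv_le_iff_one_le_mul₀ (norm_pos_iff.mpr (hne t)), mul_comm]
    exact hlow t
  let G : Om →ᵇ ℂ := BoundedContinuousFunction.ofNormedAddCommGroup (fun t => (F t)⁻¹)
    (F.continuous.inv₀ hne) M hinv
  have hG : ∀ t, G t = (F t)⁻¹ := fun t => rfl
  have hGg : omHom G = g := by
    apply Lp.ext
    filter_upwards [coeFn_omHom G, hprod, ae_ne0] with t h1 h2 h3
    rw [h1, ext_of_ne _ h3, hG]
    rw [ext_of_ne _ h3] at h2
    exact (eq_inv_of_mul_eq_one_right h2).symm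
  have hr1 : ∀ w : ℂ, ‖w‖ ≤ 1 → 1 ≤ ‖r w‖ * M := by
    intro w hw
    have := neBot_nbw d hw
    have h2 := ((hF2.tendsto d hr hw).norm).mul_const M
    exact ge_of_tendsto' h2 hlow
  have hr0 : ∀ w : ℂ, ‖w‖ ≤ 1 → r w ≠ 0 := by
    intro w hw h0
    have := hr1 w hw
    rw [h0, norm_zero, zero_mul] at this
    linarith
  refine ⟨G, ⟨by rw [hGg]; exact hg, fun w => (r w)⁻¹, hr.inv hr0, ?_⟩, hGg⟩
  have h6 : Tendsto (fun t => M * M * ‖F t - r (d.phi t)‖) (nb 0) (𝓝 (M * M * 0)) := by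
    refine Tendsto.const_mul _ ?_
    simpa using hF2.norm
  rw [mul_zero] at h6
  refine squeeze_zero_norm ?_ h6
  intro t
  have h7 : G t - (r (d.phi t))⁻¹ = (F t)⁻¹ * (r (d.phi t))⁻¹ * (-(F t - r (d.phi t))) := by
    rw [hG]
    have h8 := hne t
    have h9 := hr0 _ (d.phi_le t)
    field_simp
    ring
  rw [h7, norm_mul, norm_mul, norm_neg]
  have h10 : ‖(r (d.phi t))⁻¹‖ ≤ M := by
    rw [norm_inv, inv_le_iff_one_le_mul₀ (norm_pos_iff.mpr (hr0 _ (d.phi_le t))), mul_comm]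
    exact hr1 _ (d.phi_le t)
  have := hinv t
  gcongr

theorem isTypeA_XX : IsTypeA (XX d) where
  closed := isClosed_XX d
  subset_Hinf := XX_subset_Hinf d
  cond1 := cond1 d
  cond2 := cond2 d
  cond3 := cond3 d
  cond4 := cond4 d

theorem ee_mem_of_star {V : StarSubalgebra ℂ Linf} (h : ee 1 ∈ V) (n : ℤ) : ee n ∈ V := by
  have hpos : ∀ k : ℕ, ee (k : ℤ) ∈ V := by
    intro k
    induction k with
    | zero => rw [Nat.cast_zero, ee_zero]; exact one_mem V
    | succ k ih => push_cast; rw [ee_add]; exact mul_mem ih h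
  have hstar : ∀ k : ℤ, star (ee k) = ee (-k) := by
    intro k
    apply Lp.ext
    filter_upwards [Linf.coeFn_star (ee k), coeFn_ee k, coeFn_ee (-k)] with t h1 h2 h3
    rw [h1, h2, h3, fourier_neg]
  obtain ⟨k, rfl | rfl⟩ := n.eq_nat_or_neg
  · exact hpos k
  · rw [← hstar]; exact star_mem (hpos k)

theorem contHom_mem_of_star {V : StarSubalgebra ℂ Linf} (hV : IsClosed (V : Set Linf))
    (h : ee 1 ∈ V) (c : C(Circ, ℂ)) : contHom c ∈ V := by
  have h2 : c ∈ closure (Submodule.span ℂ (Set.range (@fourier 1)) : Set C(Circ, ℂ)) := by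
    have h1 : c ∈ (Submodule.span ℂ (Set.range (@fourier 1))).topologicalClosure := by
      rw [span_fourier_closure_eq_top]; trivial
    exact h1
  have h3 : contHom c ∈ closure (contHom '' (Submodule.span ℂ (Set.range (@fourier 1)) : Set C(Circ, ℂ))) :=
    image_closure_subset_closure_image continuous_contHom ⟨c, h2, rfl⟩
  have h4 : closure (contHom '' (Submodule.span ℂ (Set.range (@fourier 1)) : Set C(Circ, ℂ))) ⊆
      (V : Set Linf) := by
    apply closure_minimal _ hV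
    rintro _ ⟨e, he, rfl⟩
    induction he using Submodule.span_induction with
    | mem x hx =>
      obtain ⟨n, rfl⟩ := hx
      rw [contHom_fourier]; exact ee_mem_of_star h n
    | zero => rw [map_zero]; exact zero_mem V
    | add x y _ _ hx hy => rw [map_add]; exact add_mem hx hy
    | smul a x _ hx => rw [map_smul]; exact V.smul_mem hx a
  exact h4 h3

theorem not_isTypeB_XX : ¬ IsTypeB (XX d) := by
  rintro ⟨V, hVcl, -, hX⟩
  have hXV : ∀ {f : Linf}, f ∈ XX d → f ∈ V := by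
    intro f hf
    have : f ∈ (V : Set Linf) ∩ Hinf := hX ▸ hf
    exact this.1
  have he1 : ee 1 ∈ V := by
    have h1 : ((eqv d (zz d) : XX d) : Linf) ∈ V := hXV (eqv d (zz d)).2
    rw [coe_eqv] at h1
    have h2 : omHom (res (fourier 1)) ∈ V := h1
    rwa [omHom_res, contHom_fourier] at h2
  have hf : omHom d.f ∈ V := hXV ⟨d.f, f_mem_X0 d, rfl⟩
  have hfs : omHom (star d.f) ∈ V := by
    rw [map_star]; exact star_mem hf
  have hlim : Tendsto (d.g - star d.f : Om →ᵇ ℂ) (nb 0) (𝓝 0) := by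
    have h1 := (Complex.continuous_conj.tendsto (0 : ℂ)).comp d.f_lim
    rw [map_zero] at h1
    have h2 := d.g_lim.sub h1
    rw [sub_zero] at h2
    refine h2.congr ?_
    intro t
    rw [BoundedContinuousFunction.sub_apply]
    simp only [Function.comp_apply, map_sub]
    show _ = d.g t - conj (d.f t)
    ring
  obtain ⟨c, hc, -⟩ := exists_cont_of_tendsto hlim
  have hg : omHom d.g ∈ V := by
    have h1 : omHom d.g = contHom c + omHom (star d.f) := by
      rw [← omHom_res, hc, ← map_add, sub_add_cancel]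
    rw [h1]
    exact add_mem (contHom_mem_of_star hVcl he1 c) hfs
  have hgX : omHom d.g ∈ XX d := by
    have : omHom d.g ∈ (V : Set Linf) ∩ Hinf := ⟨hg, d.g_mem⟩
    rw [← hX] at this
    exact this
  obtain ⟨G, hG, hGg⟩ := hgX
  have hGg' : G = d.g := isometry_omHom.injective hGg
  subst hGg'
  obtain ⟨-, r, hr, hlim2⟩ := hG
  apply hr.ne_conj
  intro w hw
  have := neBot_nbw d hw
  have h1 := hlim2.tendsto d hr hw
  have h2 : Tendsto (fun t => conj (d.phi t)) (nbw d w) (𝓝 (conj w)) :=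
    (Complex.continuous_conj.tendsto w).comp (tendsto_phi d w)
  have h3 := (d.g_lim.mono_left (inf_le_right : nbw d w ≤ nb 0)).add h2
  rw [zero_add] at h3
  refine tendsto_nhds_unique h1 (h3.congr ?_)
  intro t; ring

theorem main_of_data (d : Data) : ∃ X : Subalgebra ℂ Linf, IsTypeA X ∧ ¬ IsTypeB X :=
  ⟨XX d, isTypeA_XX d, not_isTypeB_XX d⟩

end Pool.Agent.Lib.MP_e9741b_an
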