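import Pool.Agent.Lib.MP_e9741b_an.InnerCont
import Pool.Agent.Lib.MP_e9741b_an.Disc

/-!
Bounded continuous functions on the circle without the point `0` (i.e. `z = 1`), as a subalgebra of
`L^∞`.
-/

set_option autoImplicit false

open MeasureTheory AddCircle Filter Topology
open scoped ENNReal ComplexConjugate InnerProductSpace BoundedContinuousFunction

namespace Pool.Agent.Lib.MP_e9741b_an

instance instNontrivialCirc : Nontrivial Circ := by
  refine ⟨⟨((1 / 2 : ℝ) : Circ), 0, ?_⟩⟩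
  rw [Ne, AddCircle.coe_eq_zero_iff]
  rintro ⟨n, hn⟩
  simp only [zsmul_eq_mul, mul_one] at hn
  have h2 : (2 * n : ℝ) = 1 := by linarith
  have h3 : (2 * n : ℤ) = 1 := by exact_mod_cast h2
  omega

instance instNullSingletonClass : NullSingletonClass mu := inferInstance

/-- The circle without the point `0`. -/
abbrev Om : Type := {t : Circ // t ≠ 0}

/-- The trace on `Om` of the neighbourhood filter of `s`. -/
def nb (s : Circ) : Filter Om := comap Subtype.val (𝓝 s)

theorem map_val_nb (s : Circ) : map Subtype.val (nb s) = 𝓝 s ⊓ 𝓟 {t | t ≠ 0} := by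
  rw [nb, map_comap]; simp

instance instNeBotNb (s : Circ) : NeBot (nb s) := by
  rw [← map_neBot_iff Subtype.val, map_val_nb]
  have h : Dense {t : Circ | t ≠ 0} := dense_compl_singleton (0 : Circ)
  exact mem_closure_iff_nhdsWithin_neBot.mp (h s)

theorem nb_eq_nhds (t : Om) : nb (t : Circ) = 𝓝 t := (nhds_induced _ _).symm

/-- Extension by zero at the point `0`. -/
noncomputable def ext (G : Om → ℂ) : Circ → ℂ := fun t => if h : t ≠ 0 then G ⟨t, h⟩ else 0

theorem ext_apply (G : Om → ℂ) (t : Om) : ext G (t : Circ) = G t := by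
  simp only [ext]
  rw [dif_pos t.2]

theorem ext_of_ne (G : Om → ℂ) {t : Circ} (h : t ≠ 0) : ext G t = G ⟨t, h⟩ := by
  simp only [ext]
  rw [dif_pos h]

theorem isOpen_ne0 : IsOpen {t : Circ | t ≠ 0} := isOpen_compl_singleton

theorem ae_ne0 : ∀ᵐ t ∂mu, t ≠ (0 : Circ) := by
  have : mu {(0 : Circ)} = 0 := measure_singleton 0
  rw [ae_iff]
  simp

theorem continuousOn_ext {G : Om → ℂ} (hG : Continuous G) : ContinuousOn (ext G) {t | t ≠ 0} := by
  rw [continuousOn_iff_continuous_domRestrict]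
  refine hG.congr ?_
  intro t
  exact (ext_apply G t).symm

theorem aestronglyMeasurable_ext {G : Om → ℂ} (hG : Continuous G) :
    AEStronglyMeasurable (ext G) mu := by
  have h1 := (continuousOn_ext hG).aestronglyMeasurable (μ := mu) isOpen_ne0.measurableSet
  have h2 : mu.restrict {t : Circ | t ≠ 0} = mu := Measure.restrict_eq_self_of_ae_mem ae_ne0
  rwa [h2] at h1

theorem memLp_ext (G : Om →ᵇ ℂ) : MemLp (ext G) ∞ mu := by
  apply memLp_top_of_bound (aestronglyMeasurable_ext G.continuous) ‖G‖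
  filter_upwards [ae_ne0] with t ht
  rw [ext_of_ne _ ht]; exact G.norm_coe_le_norm _

/-- Bounded continuous functions on `Om` as elements of `L^∞`. -/
noncomputable def omHom : (Om →ᵇ ℂ) →⋆ₐ[ℂ] Linf where
  toFun G := (memLp_ext G).toLp
  map_one' := by
    apply Lp.ext
    filter_upwards [(memLp_ext (1 : Om →ᵇ ℂ)).coeFn_toLp, Linf.coeFn_one, ae_ne0] with t h1 h2 h3
    rw [h1, h2, ext_of_ne _ h3]; rfl
  map_mul' G H := by
    apply Lp.ext
    filter_upwards [(memLp_ext (G * H)).coeFn_toLp, (memLp_ext G).coeFn_toLp,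
      (memLp_ext H).coeFn_toLp, Linf.coeFn_mul (memLp_ext G).toLp (memLp_ext H).toLp,
      ae_ne0] with t h1 h2 h3 h4 h5
    rw [h1, h4, h2, h3, ext_of_ne _ h5, ext_of_ne _ h5, ext_of_ne _ h5]; rfl
  map_zero' := by
    apply Lp.ext
    filter_upwards [(memLp_ext (0 : Om →ᵇ ℂ)).coeFn_toLp, Lp.coeFn_zero ℂ ∞ mu, ae_ne0]
      with t h1 h2 h3
    rw [h1, h2, ext_of_ne _ h3]; rfl
  map_add' G H := by
    apply Lp.ext
    filter_upwards [(memLp_ext (G + H)).coeFn_toLp, (memLp_ext G).coeFn_toLp,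
      (memLp_ext H).coeFn_toLp, Linf.coeFn_add (memLp_ext G).toLp (memLp_ext H).toLp,
      ae_ne0] with t h1 h2 h3 h4 h5
    rw [h1, h4, h2, h3, ext_of_ne _ h5, ext_of_ne _ h5, ext_of_ne _ h5]; rfl
  commutes' r := by
    have h0 : algebraMap ℂ Linf r = r • (1 : Linf) := Algebra.algebraMap_eq_smul_one r
    rw [h0]
    apply Lp.ext
    filter_upwards [(memLp_ext (algebraMap ℂ (Om →ᵇ ℂ) r)).coeFn_toLp,
      Linf.coeFn_smul r 1, Linf.coeFn_one, ae_ne0] with t h1 h2 h3 h4
    rw [h1, h2, h3, ext_of_ne _ h4]; simp [Algebra.algebraMap_eq_smul_one]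
  map_star' G := by
    apply Lp.ext
    filter_upwards [(memLp_ext (star G)).coeFn_toLp, (memLp_ext G).coeFn_toLp,
      Linf.coeFn_star (memLp_ext G).toLp, ae_ne0] with t h1 h2 h3 h4
    rw [h1, h3, h2, ext_of_ne _ h4, ext_of_ne _ h4]; rfl

theorem coeFn_omHom (G : Om →ᵇ ℂ) : ⇑(omHom G) =ᵐ[mu] ext G := (memLp_ext G).coeFn_toLp

/-- An almost everywhere bound on a function continuous on `Om` holds everywhere. -/
theorem forall_of_ae_closed {G : Om → ℂ} (hG : Continuous G) {S : Set ℂ} (hS : IsClosed S)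
    (h : ∀ᵐ t ∂mu, ext G t ∈ S) (t : Om) : G t ∈ S := by
  have h2 := Measure.dense_of_ae h
  by_contra hcon
  have h3 : IsOpen {u : Om | G u ∉ S} := (hS.preimage hG).isOpen_compl
  have h4 : IsOpen (Subtype.val '' {u : Om | G u ∉ S}) :=
    isOpen_ne0.isOpenMap_subtype_val _ h3
  obtain ⟨x, hx1, hx2⟩ := h2.inter_open_nonempty _ h4 ⟨t, t, hcon, rfl⟩
  obtain ⟨u, hu, rfl⟩ := hx1
  apply hu
  have : ext G u ∈ S := hx2
  rwa [ext_apply] at this

theorem norm_omHom (G : Om →ᵇ ℂ) : ‖omHom G‖ = ‖G‖ := by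
  apply le_antisymm
  · apply Linf.norm_le (norm_nonneg _)
    filter_upwards [coeFn_omHom G, ae_ne0] with t ht h0
    rw [ht, ext_of_ne _ h0]; exact G.norm_coe_le_norm _
  · rw [BoundedContinuousFunction.norm_le (norm_nonneg _)]
    intro t
    have h1 : ∀ᵐ t ∂mu, ext G t ∈ Metric.closedBall (0 : ℂ) ‖omHom G‖ := by
      filter_upwards [coeFn_omHom G, Linf.ae_norm_le (omHom G)] with t h1 h2
      rw [mem_closedBall_zero_iff]
      rwa [← h1]
    have := forall_of_ae_closed G.continuous Metric.isClosed_closedBall h1 t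
    rwa [mem_closedBall_zero_iff] at this

theorem isometry_omHom : Isometry omHom :=
  AddMonoidHomClass.isometry_of_norm omHom norm_omHom

/-- Restriction of continuous functions to `Om`. -/
noncomputable def res (c : C(Circ, ℂ)) : Om →ᵇ ℂ :=
  BoundedContinuousFunction.ofNormedAddCommGroup (fun t : Om => c t) (by fun_prop) ‖c‖
    (fun t => c.norm_coe_le_norm t)

@[simp] theorem res_apply (c : C(Circ, ℂ)) (t : Om) : res c t = c t := rfl

theorem omHom_res (c : C(Circ, ℂ)) : omHom (res c) = contHom c := by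
  apply Lp.ext
  filter_upwards [coeFn_omHom (res c), coeFn_contHom c, ae_ne0] with t h1 h2 h3
  rw [h1, h2, ext_of_ne _ h3]; rfl

theorem tendsto_res (c : C(Circ, ℂ)) (s : Circ) : Tendsto (res c) (nb s) (𝓝 (c s)) := by
  have h1 : Tendsto (fun t : Om => (t : Circ)) (nb s) (𝓝 s) := tendsto_comap
  exact (c.continuous.tendsto s).comp h1

/-- A bounded continuous function on `Om` with a limit at `0` comes from a continuous function. -/
theorem exists_cont_of_tendsto {G : Om →ᵇ ℂ} {a : ℂ} (h : Tendsto G (nb 0) (𝓝 a)) :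
    ∃ c : C(Circ, ℂ), res c = G ∧ c 0 = a := by
  classical
  let c : Circ → ℂ := fun t => if h : t ≠ 0 then G ⟨t, h⟩ else a
  have hc1 : ∀ t : Om, c t = G t := by
    intro t
    simp only [c]
    rw [dif_pos t.2]
  have hc0 : c 0 = a := by simp [c]
  have hcont : Continuous c := by
    rw [continuous_iff_continuousAt]
    intro t
    by_cases ht : t = 0
    · subst ht
      have h1 : Tendsto c (𝓝[≠] (0 : Circ)) (𝓝 a) := by
        have h2 : (𝓝[≠] (0 : Circ)) = map Subtype.val (nb 0) := by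
          rw [map_val_nb]; rfl
        rw [h2, tendsto_map'_iff]
        refine h.congr ?_
        intro t
        exact (hc1 t).symm
      rw [ContinuousAt, hc0, ← nhdsNE_sup_pure]
      refine Tendsto.sup h1 ?_
      rw [← hc0]
      exact tendsto_pure_nhds _ _
    · have h1 : ContinuousAt (c ∘ (Subtype.val : Om → Circ)) ⟨t, ht⟩ := by
        have : c ∘ (Subtype.val : Om → Circ) = G := by
          funext u; exact hc1 u
        rw [this]; exact G.continuous.continuousAt
      exact (isOpen_ne0.isOpenEmbedding_subtypeVal.continuousAt_iff (x := (⟨t, ht⟩ : Om))).mp h1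
  exact ⟨⟨c, hcont⟩, by ext t; exact hc1 t, hc0⟩

/-- The peaking function `(1 + conj(z_s) z)/2` at the point `s`. -/
noncomputable def pk (s : Circ) : C(Circ, ℂ) :=
  ⟨fun t => (1 + (toCircle (t - s) : ℂ)) / 2, by fun_prop⟩

theorem norm_pk_le (s t : Circ) : ‖pk s t‖ ≤ 1 := by
  show ‖(1 + (toCircle (t - s) : ℂ)) / 2‖ ≤ 1
  rw [norm_div, Complex.norm_two]
  have := norm_add_le (1 : ℂ) (toCircle (t - s) : ℂ)
  rw [Circle.norm_coe, norm_one] at this
  linarith

theorem eq_one_of_norm_one_add {z : ℂ} (hz : ‖z‖ ≤ 1) (h : 2 ≤ ‖1 + z‖) : z = 1 := by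
  have h1 : ‖1 + z‖ ^ 2 = 1 + 2 * z.re + ‖z‖ ^ 2 := by
    rw [← Complex.normSq_eq_norm_sq, ← Complex.normSq_eq_norm_sq, Complex.normSq_apply,
      Complex.normSq_apply]
    simp only [Complex.add_re, Complex.one_re, Complex.add_im, Complex.one_im]
    ring
  have h2 : z.re ≤ ‖z‖ := Complex.re_le_norm z
  have h3 : (4 : ℝ) ≤ ‖1 + z‖ ^ 2 := by nlinarith
  have h4 : z.re = 1 := by nlinarith [norm_nonneg z]
  have h5 : ‖z‖ = 1 := by linarith
  have h6 : ‖z‖ ^ 2 = z.re ^ 2 + z.im ^ 2 := by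
    rw [← Complex.normSq_eq_norm_sq, Complex.normSq_apply]; ring
  have h7 : z.im = 0 := by
    rw [h5, h4] at h6
    nlinarith
  exact Complex.ext (by simp [h4]) (by simp [h7])

theorem norm_pk_lt {s t : Circ} (h : t ≠ s) : ‖pk s t‖ < 1 := by
  by_contra hcon
  push Not at hcon
  have h1 : (2 : ℝ) ≤ ‖1 + (toCircle (t - s) : ℂ)‖ := by
    have h2 : ‖pk s t‖ = ‖1 + (toCircle (t - s) : ℂ)‖ / 2 := by
      show ‖(1 + (toCircle (t - s) : ℂ)) / 2‖ = _
      rw [norm_div, Complex.norm_two]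
    linarith
  have h3 := eq_one_of_norm_one_add (by rw [Circle.norm_coe]) h1
  have h4 : toCircle (t - s) = 1 := by
    apply Subtype.ext; simpa using h3
  have h5 : (t - s) = 0 := by
    apply injective_toCircle (T := 1) one_ne_zero
    rw [h4, toCircle_zero]
  exact h (sub_eq_zero.mp h5)

theorem pk_self (s : Circ) : pk s s = 1 := by
  show (1 + (toCircle (s - s) : ℂ)) / 2 = 1
  rw [sub_self, toCircle_zero]; norm_num

/-- Powers of the peaking function make small a function which is small near the peak. -/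
theorem exists_pow_pk (s : Circ) (F : Om →ᵇ ℂ) {c : ℝ} (hc : 0 < c)
    (h : ∀ᶠ t in nb s, ‖F t‖ ≤ c) : ∃ n : ℕ, ‖(res (pk s)) ^ n * F‖ ≤ c := by
  rw [nb, eventually_comap] at h
  obtain ⟨U, hU, hUo, hsU⟩ := eventually_nhds_iff.mp h
  -- a uniform bound outside of `U`
  obtain ⟨ρ, hρ0, hρ1, hρ⟩ : ∃ ρ : ℝ, 0 ≤ ρ ∧ ρ < 1 ∧ ∀ t ∉ U, ‖pk s t‖ ≤ ρ := by
    rcases (Uᶜ).eq_empty_or_nonempty with hemp | hne
    · refine ⟨0, le_rfl, zero_lt_one, fun t ht => ?_⟩
      have : t ∈ Uᶜ := ht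
      rw [hemp] at this
      exact absurd this (Set.notMem_empty t)
    · obtain ⟨t0, ht0, hmax⟩ := hUo.isClosed_compl.isCompact.exists_isMaxOn hne
        (f := fun t => ‖pk s t‖) (by fun_prop)
      refine ⟨‖pk s t0‖, norm_nonneg _, ?_, fun t ht => hmax ht⟩
      apply norm_pk_lt
      rintro rfl
      exact ht0 hsU
  obtain ⟨n, hn⟩ : ∃ n : ℕ, ρ ^ n * ‖F‖ ≤ c := by
    have h1 : Tendsto (fun n : ℕ => ρ ^ n * ‖F‖) atTop (𝓝 (0 * ‖F‖)) :=
      (tendsto_pow_atTop_nhds_zero_of_lt_one hρ0 hρ1).mul_const _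
    rw [zero_mul] at h1
    exact (h1.eventually (ge_mem_nhds hc)).exists
  refine ⟨n, ?_⟩
  rw [BoundedContinuousFunction.norm_le hc.le]
  intro t
  rw [BoundedContinuousFunction.mul_apply, BoundedContinuousFunction.pow_apply, res_apply,
    norm_mul, norm_pow]
  by_cases ht : (t : Circ) ∈ U
  · calc ‖pk s t‖ ^ n * ‖F t‖ ≤ 1 ^ n * c := by
          have := norm_pk_le s t
          have := hU t ht t rfl
          gcongr
      _ = c := by simp
  · calc ‖pk s t‖ ^ n * ‖F t‖ ≤ ρ ^ n * ‖F‖ := by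
          have := hρ t ht
          have := F.norm_coe_le_norm t
          gcongr
      _ ≤ c := hn

end Pool.Agent.Lib.MP_e9741b_an
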