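import Pool.Agent.Lib.MP_e9741b_an.Algebra

/-!
The Shilov boundary of the algebra `X`.
-/

set_option autoImplicit false

open MeasureTheory AddCircle Filter Topology WeakDual
open scoped ENNReal ComplexConjugate InnerProductSpace BoundedContinuousFunction

namespace Pool.Agent.Lib.MP_e9741b_an

variable (d : Data)

instance instCompleteXX : CompleteSpace (XX d) := (isClosed_XX d).completeSpace_coe

/-- The algebra isomorphism between `X0` and `XX`. -/
noncomputable def eqv : X0 d ≃ₐ[ℂ] XX d :=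
  (X0 d).equivMapOfInjective omHom.toAlgHom isometry_omHom.injective

theorem coe_eqv (G : X0 d) : ((eqv d G : XX d) : Linf) = omHom (G : Om →ᵇ ℂ) := rfl

theorem norm_eqv (G : X0 d) : ‖eqv d G‖ = ‖(G : Om →ᵇ ℂ)‖ := norm_omHom _

theorem norm_char_le (m : characterSpace ℂ (XX d)) (x : XX d) : ‖m x‖ ≤ ‖x‖ := by
  have h := AlgHom.norm_apply_le_self_mul_norm_one (WeakDual.CharacterSpace.toAlgHom m) x
  have h1 : ‖(1 : XX d)‖ = 1 := by
    have h2 : (1 : XX d) = eqv d 1 := (map_one (eqv d)).symm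
    rw [h2, norm_eqv]
    show ‖(1 : Om →ᵇ ℂ)‖ = 1
    have : Nonempty Om := by
      obtain ⟨t, ht⟩ := exists_ne (0 : Circ)
      exact ⟨⟨t, ht⟩⟩
    exact norm_one
  rw [h1, mul_one] at h
  exact h

/-- Evaluation at a point of the punctured circle. -/
noncomputable def ev0 (t : Om) : X0 d →ₐ[ℂ] ℂ where
  toFun := fun G : X0 d => (G : Om →ᵇ ℂ) t
  map_one' := rfl
  map_mul' := fun _ _ => rfl
  map_zero' := rfl
  map_add' := fun _ _ => rfl
  commutes' := fun r => by
    simp [Algebra.algebraMap_eq_smul_one]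

/-- Evaluation at a point of the punctured circle. -/
noncomputable def evHom (t : Om) : XX d →ₐ[ℂ] ℂ :=
  AlgHom.comp (ev0 d t) (eqv d).symm.toAlgHom

/-- Evaluation at a point of the punctured circle, as a character. -/
noncomputable def ev (t : Om) : characterSpace ℂ (XX d) :=
  WeakDual.CharacterSpace.equivAlgHom.symm (evHom d t)

theorem ev_eqv (t : Om) (G : X0 d) : ev d t (eqv d G) = (G : Om →ᵇ ℂ) t := by
  have h : ev d t (eqv d G) = evHom d t (eqv d G) := by
    rw [ev, WeakDual.CharacterSpace.equivAlgHom_symm_coe]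
  rw [h]
  show ((eqv d).symm (eqv d G) : Om →ᵇ ℂ) t = _
  rw [AlgEquiv.symm_apply_apply]

/-- The coordinate function as an element of `X0`. -/
noncomputable def zz : X0 d :=
  ⟨res (fourier 1), res_mem_X0 d (by rw [contHom_fourier]; exact ee_mem_Hinf zero_le_one)⟩

theorem pk_eq (s : Circ) : pk s = ((1 / 2 : ℂ)) • (1 : C(Circ, ℂ)) +
    ((toCircle (-s) : ℂ) / 2) • (fourier 1 : C(Circ, ℂ)) := by
  ext t
  show (1 + (toCircle (t - s) : ℂ)) / 2 = (1 / 2 : ℂ) * 1 + ((toCircle (-s) : ℂ) / 2) * fourier 1 t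
  rw [fourier_one, sub_eq_add_neg, toCircle_add]
  push_cast; ring

theorem pk_mem (s : Circ) : contHom (pk s) ∈ Hinf := by
  rw [pk_eq, map_add, map_smul, map_smul, map_one, contHom_fourier]
  exact Hinf_add (Hinf_smul _ one_mem_Hinf) (Hinf_smul _ (ee_mem_Hinf zero_le_one))

/-- The peaking function as an element of `X0`. -/
noncomputable def pkX (s : Circ) : X0 d := ⟨res (pk s), res_mem_X0 d (pk_mem s)⟩

theorem pkX_eq (s : Circ) : pkX d s = (1 / 2 : ℂ) • (1 : X0 d) +
    ((toCircle (-s) : ℂ) / 2) • zz d := by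
  apply Subtype.ext
  ext t
  show pk s t = _
  rw [pk_eq]; rfl

theorem char_pk (m : characterSpace ℂ (XX d)) (s : Circ) :
    m (eqv d (pkX d s)) = (1 + (toCircle (-s) : ℂ) * m (eqv d (zz d))) / 2 := by
  rw [pkX_eq, map_add, map_add, map_smul, map_smul, map_smul, map_smul, map_one, map_one]
  simp only [smul_eq_mul]
  ring

/-- Localisation: a character over the point `s` only sees the behaviour near `s`. -/
theorem norm_char_le_of_eventually (m : characterSpace ℂ (XX d)) {s : Circ}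
    (hm : m (eqv d (zz d)) = (toCircle s : ℂ)) (G : X0 d) {c : ℝ} (hc : 0 < c)
    (h : ∀ᶠ t in nb s, ‖(G : Om →ᵇ ℂ) t‖ ≤ c) : ‖m (eqv d G)‖ ≤ c := by
  obtain ⟨n, hn⟩ := exists_pow_pk s (G : Om →ᵇ ℂ) hc h
  have h1 : m (eqv d (pkX d s)) = 1 := by
    rw [char_pk, hm, ← Circle.coe_mul, ← toCircle_add, neg_add_cancel, toCircle_zero]
    norm_num
  have h2 : m (eqv d ((pkX d s) ^ n * G)) = m (eqv d G) := by
    rw [map_mul, map_mul, map_pow, map_pow, h1, one_pow, one_mul]
  rw [← h2]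
  calc _ ≤ ‖eqv d ((pkX d s) ^ n * G)‖ := norm_char_le d m _
    _ = ‖(res (pk s)) ^ n * (G : Om →ᵇ ℂ)‖ := by rw [norm_eqv]; rfl
    _ ≤ c := hn

theorem char_eq_ev (m : characterSpace ℂ (XX d)) (s : Om)
    (hm : m (eqv d (zz d)) = (toCircle (s : Circ) : ℂ)) : m = ev d s := by
  apply WeakDual.CharacterSpace.ext
  intro x
  obtain ⟨G, rfl⟩ := (eqv d).surjective x
  rw [ev_eqv]
  have key : ∀ c : ℝ, 0 < c → ‖m (eqv d G) - (G : Om →ᵇ ℂ) s‖ ≤ c := by
    intro c hc
    let H : X0 d := G - algebraMap ℂ (X0 d) ((G : Om →ᵇ ℂ) s)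
    have hH : ∀ t, (H : Om →ᵇ ℂ) t = (G : Om →ᵇ ℂ) t - (G : Om →ᵇ ℂ) s := by
      intro t
      simp [H, Algebra.algebraMap_eq_smul_one]
    have h1 : ∀ᶠ t in nb (s : Circ), ‖(H : Om →ᵇ ℂ) t‖ ≤ c := by
      rw [nb_eq_nhds]
      have h2 : Tendsto (fun t => ‖(H : Om →ᵇ ℂ) t‖) (𝓝 s) (𝓝 0) := by
        have h3 := ((G : Om →ᵇ ℂ).continuous.tendsto s).sub_const ((G : Om →ᵇ ℂ) s)
        rw [sub_self] at h3
        have h4 := h3.norm
        rw [norm_zero] at h4
        refine h4.congr ?_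
        intro t; rw [hH]
      exact h2.eventually (ge_mem_nhds hc)
    have h5 := norm_char_le_of_eventually d m hm H hc h1
    have h6 : m (eqv d H) = m (eqv d G) - (G : Om →ᵇ ℂ) s := by
      simp only [H]
      rw [map_sub, map_sub, AlgEquiv.commutes, AlgHomClass.commutes]; rfl
    rwa [h6] at h5
  have h7 : ‖m (eqv d G) - (G : Om →ᵇ ℂ) s‖ ≤ 0 := le_of_forall_pos_le_add (fun c hc => by
    simpa using key c hc)
  exact sub_eq_zero.mp (norm_le_zero_iff.mp h7)

/-- `f` as an element of `X0`. -/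
noncomputable def fX : X0 d := ⟨d.f, f_mem_X0 d⟩

theorem char_over_zero (m : characterSpace ℂ (XX d)) (hm : m (eqv d (zz d)) = 1) :
    ‖m (eqv d (fX d))‖ ≤ 1 ∧
    ∀ (G : X0 d) (r : ℂ → ℂ), DA r → Asym d (G : Om →ᵇ ℂ) r →
      m (eqv d G) = r (m (eqv d (fX d))) := by
  have hm' : m (eqv d (zz d)) = (toCircle (0 : Circ) : ℂ) := by rw [hm, toCircle_zero]; rfl
  have hw : ‖m (eqv d (fX d))‖ ≤ 1 := by
    apply le_of_forall_pos_le_add
    intro c hc
    apply norm_char_le_of_eventually d m hm' (fX d) (by positivity)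
    have h1 : Tendsto (fun t => ‖d.f t - d.phi t‖) (nb 0) (𝓝 0) := by simpa using d.f_lim.norm
    filter_upwards [h1.eventually (ge_mem_nhds hc)] with t ht
    have h2 : d.f t = d.phi t + (d.f t - d.phi t) := by ring
    show ‖d.f t‖ ≤ 1 + c
    rw [h2]
    exact (norm_add_le _ _).trans (add_le_add (d.phi_le t) ht)
  refine ⟨hw, fun G r hr hG => ?_⟩
  set w0 := m (eqv d (fX d)) with hw0
  have key : ∀ e : ℝ, 0 < e → ‖m (eqv d G) - r w0‖ ≤ e := by
    intro e he
    obtain ⟨p, hp⟩ := hr.approx (e := e / 3) (by positivity)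
    let H : X0 d := G - Polynomial.aeval (fX d) p
    have hA : ∀ t, ((Polynomial.aeval (fX d) p : X0 d) : Om →ᵇ ℂ) t = p.eval (d.f t) := by
      intro t
      have h1 : ((Polynomial.aeval (fX d) p : X0 d) : Om →ᵇ ℂ) t =
          ev0 d t (Polynomial.aeval (fX d) p) := rfl
      rw [h1, ← Polynomial.aeval_algHom_apply]
      simp only [Polynomial.coe_aeval_eq_eval]
      rfl
    have hH : ∀ t, (H : Om →ᵇ ℂ) t = (G : Om →ᵇ ℂ) t - p.eval (d.f t) := by
      intro t
      rw [← hA]; rfl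
    have hev : ∀ᶠ t in nb 0, ‖(H : Om →ᵇ ℂ) t‖ ≤ 2 * e / 3 := by
      have t1 : Tendsto (fun t => ‖(G : Om →ᵇ ℂ) t - r (d.phi t)‖) (nb 0) (𝓝 0) := by
        simpa using Tendsto.norm hG
      have hb : ∀ t, ‖d.f t‖ ≤ max ‖d.f‖ 1 :=
        fun t => (d.f.norm_coe_le_norm t).trans (le_max_left _ _)
      have hb2 : ∀ t, ‖d.phi t‖ ≤ max ‖d.f‖ 1 := fun t => (d.phi_le t).trans (le_max_right _ _)
      have t2 := (tendsto_polynomial_sub p hb hb2 d.f_lim).norm
      rw [norm_zero] at t2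
      filter_upwards [t1.eventually (ge_mem_nhds (show 0 < e / 6 by positivity)),
        t2.eventually (ge_mem_nhds (show 0 < e / 6 by positivity))] with t ht1 ht2
      have h3 : (H : Om →ᵇ ℂ) t = ((G : Om →ᵇ ℂ) t - r (d.phi t)) +
          (r (d.phi t) - p.eval (d.phi t)) - (p.eval (d.f t) - p.eval (d.phi t)) := by
        rw [hH]; ring
      rw [h3]
      have h4 := hp _ (d.phi_le t)
      calc _ ≤ ‖((G : Om →ᵇ ℂ) t - r (d.phi t)) + (r (d.phi t) - p.eval (d.phi t))‖ +
            ‖p.eval (d.f t) - p.eval (d.phi t)‖ := norm_sub_le _ _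
        _ ≤ ‖(G : Om →ᵇ ℂ) t - r (d.phi t)‖ + ‖r (d.phi t) - p.eval (d.phi t)‖ +
            ‖p.eval (d.f t) - p.eval (d.phi t)‖ := by gcongr; exact norm_add_le _ _
        _ ≤ e / 6 + e / 3 + e / 6 := by gcongr
        _ = 2 * e / 3 := by ring
    have h5 := norm_char_le_of_eventually d m hm' H (by positivity) hev
    have h6 : m (eqv d H) = m (eqv d G) - p.eval w0 := by
      simp only [H]
      rw [map_sub, map_sub]
      congr 1
      have h8 : m (eqv d (Polynomial.aeval (fX d) p)) =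
          (WeakDual.CharacterSpace.toAlgHom m) ((eqv d).toAlgHom (Polynomial.aeval (fX d) p)) := rfl
      rw [h8, ← Polynomial.aeval_algHom_apply, ← Polynomial.aeval_algHom_apply]
      simp only [Polynomial.coe_aeval_eq_eval]
      rfl
    rw [h6] at h5
    have h7 := hp w0 hw
    have h9 : m (eqv d G) - r w0 = (m (eqv d G) - p.eval w0) - (r w0 - p.eval w0) := by ring
    rw [h9]
    calc _ ≤ ‖m (eqv d G) - p.eval w0‖ + ‖r w0 - p.eval w0‖ := norm_sub_le _ _
      _ ≤ 2 * e / 3 + e / 3 := add_le_add h5 h7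
      _ = e := by ring
  have h7 : ‖m (eqv d G) - r w0‖ ≤ 0 := le_of_forall_pos_le_add (fun c hc => by
    simpa using key c hc)
  exact sub_eq_zero.mp (norm_le_zero_iff.mp h7)

theorem tendsto_char {ι : Type*} {l : Filter ι} {u : ι → characterSpace ℂ (XX d)}
    {m : characterSpace ℂ (XX d)} (h : ∀ x, Tendsto (fun i => u i x) l (𝓝 (m x))) :
    Tendsto u l (𝓝 m) := by
  rw [tendsto_subtype_rng]
  rw [tendsto_iff_forall_eval_tendsto_topDualPairing]
  intro x
  exact h x

/-- Every character over the unit circle is a limit of evaluations at points of the punctured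
circle. -/
theorem mem_closure_ev (m : characterSpace ℂ (XX d)) (hm : ‖m (eqv d (zz d))‖ = 1) :
    m ∈ closure (Set.range (ev d)) := by
  obtain ⟨s, hs⟩ : ∃ s : Circ, (toCircle s : ℂ) = m (eqv d (zz d)) := by
    obtain ⟨s, hs⟩ := (homeomorphCircle (T := 1) one_ne_zero).surjective
      ⟨m (eqv d (zz d)), mem_sphere_zero_iff_norm.mpr hm⟩
    refine ⟨s, ?_⟩
    rw [homeomorphCircle_apply] at hs
    rw [hs]
  by_cases h0 : s = 0
  · subst h0
    have hm1 : m (eqv d (zz d)) = 1 := by rw [← hs, toCircle_zero]; rfl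
    obtain ⟨hw, hval⟩ := char_over_zero d m hm1
    have := neBot_nbw d hw
    refine mem_closure_of_tendsto (f := ev d) (b := nbw d (m (eqv d (fX d)))) ?_
      (Eventually.of_forall fun t => Set.mem_range_self t)
    apply tendsto_char
    intro x
    obtain ⟨G, rfl⟩ := (eqv d).surjective x
    obtain ⟨hG1, r, hr, hG2⟩ := G.2
    rw [hval G r hr hG2]
    refine (hG2.tendsto d hr hw).congr ?_
    intro t
    rw [ev_eqv]
  · apply subset_closure
    exact ⟨⟨s, h0⟩, (char_eq_ev d m ⟨s, h0⟩ hs.symm).symm⟩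

/-- The set in condition 2. -/
def SS : Set (characterSpace ℂ (XX d)) := {m | ∀ I : XX d, IsInner (I : Linf) → ‖m I‖ = 1}

theorem norm_eq_one_of_inner {G : Om →ᵇ ℂ} (hG : IsInner (omHom G)) (t : Om) : ‖G t‖ = 1 := by
  have h1 : ∀ᵐ t ∂mu, ext G t ∈ Metric.sphere (0 : ℂ) 1 := by
    filter_upwards [coeFn_omHom G, hG.2] with t h1 h2
    rw [mem_sphere_zero_iff_norm, ← h1]; exact h2
  have := forall_of_ae_closed G.continuous Metric.isClosed_sphere h1 t
  rwa [mem_sphere_zero_iff_norm] at this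

theorem ev_mem_SS (t : Om) : ev d t ∈ SS d := by
  intro I hI
  obtain ⟨G, rfl⟩ := (eqv d).surjective I
  rw [ev_eqv]
  exact norm_eq_one_of_inner hI t

theorem isClosed_SS : IsClosed (SS d) := by
  have : SS d = ⋂ I : XX d, ⋂ _ : IsInner (I : Linf), {m | ‖m I‖ = 1} := by
    ext m; simp [SS]
  rw [this]
  refine isClosed_iInter fun I => isClosed_iInter fun _ => isClosed_eq ?_ continuous_const
  exact ((WeakDual.eval_continuous I).comp continuous_subtype_val).norm

theorem isInner_zz : IsInner ((eqv d (zz d) : XX d) : Linf) := by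
  rw [coe_eqv]
  show IsInner (omHom (res (fourier 1)))
  rw [omHom_res, contHom_fourier]
  exact ⟨ee_mem_Hinf zero_le_one, ae_norm_ee 1⟩

theorem SS_subset_closure : SS d ⊆ closure (Set.range (ev d)) := by
  intro m hm
  exact mem_closure_ev d m (hm _ (isInner_zz d))

theorem cond2 : IsShilovBoundary (XX d) (SS d) := by
  constructor
  · refine ⟨isClosed_SS d, fun g => ?_⟩
    have hne : (SS d).Nonempty := by
      obtain ⟨t, ht⟩ := exists_ne (0 : Circ)
      exact ⟨ev d ⟨t, ht⟩, ev_mem_SS d _⟩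
    have hcont : Continuous fun m : characterSpace ℂ (XX d) => ‖m g‖ :=
      ((WeakDual.eval_continuous g).comp continuous_subtype_val).norm
    obtain ⟨m, hm, hmax⟩ := (isClosed_SS d).isCompact.exists_isMaxOn hne hcont.continuousOn
    refine ⟨m, hm, fun m' => ?_⟩
    obtain ⟨G, rfl⟩ := (eqv d).surjective g
    refine (norm_char_le d m' _).trans ?_
    rw [norm_eqv, BoundedContinuousFunction.norm_le (norm_nonneg _)]
    intro t
    have h1 := hmax (ev_mem_SS d t)
    simp only [Set.mem_ofPred_eq, ev_eqv] at h1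
    exact h1
  · rintro F ⟨hFc, hF⟩
    refine (SS_subset_closure d).trans ?_
    apply closure_minimal _ hFc
    rintro _ ⟨t, rfl⟩
    obtain ⟨m, hm, hmax⟩ := hF (eqv d (pkX d t))
    have h1 := hmax (ev d t)
    have h2 : ev d t (eqv d (pkX d t)) = 1 := by
      rw [ev_eqv]; exact pk_self t
    rw [h2, norm_one, char_pk, norm_div, Complex.norm_two] at h1
    have h3 : ‖(toCircle (-(t : Circ)) : ℂ) * m (eqv d (zz d))‖ ≤ 1 := by
      rw [norm_mul, Circle.norm_coe, one_mul]
      refine (norm_char_le d m _).trans ?_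
      rw [norm_eqv, BoundedContinuousFunction.norm_le zero_le_one]
      intro u
      show ‖(fourier 1 : C(Circ, ℂ)) u‖ ≤ 1
      rw [fourier_one, Circle.norm_coe]
    have h4 := eq_one_of_norm_one_add h3 (by linarith)
    have h5 : m (eqv d (zz d)) = (toCircle (t : Circ) : ℂ) := by
      have h6 : (toCircle (t : Circ) : ℂ) * (toCircle (-(t : Circ)) : ℂ) = 1 := by
        rw [← Circle.coe_mul, ← toCircle_add, add_neg_cancel, toCircle_zero]; rfl
      calc m (eqv d (zz d)) = ((toCircle (t : Circ) : ℂ) * (toCircle (-(t : Circ)) : ℂ)) *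
            m (eqv d (zz d)) := by rw [h6, one_mul]
        _ = (toCircle (t : Circ) : ℂ) * ((toCircle (-(t : Circ)) : ℂ) * m (eqv d (zz d))) := by ring
        _ = _ := by rw [h4, mul_one]
    rw [← char_eq_ev d m t h5]
    exact hm

end Pool.Agent.Lib.MP_e9741b_an
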